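import Mathlib

set_option autoImplicit false

open scoped Matrix

namespace Pool.Agent.H497.GQ

/- DO NOT CHANGE the definitions part (down to the line END OF DEFS) -/

variable {n : ℕ} {R : Type} [CommRing R]

/-- The sesquilinear form `Σ s(x_i) A_ij y_j`. -/
def frm (s : R →+* R) (A : Matrix (Fin n) (Fin n) R) (x y : Fin n → R) : R :=
  (fun i => s (x i)) ⬝ᵥ (A *ᵥ y)

/-- `c (X - 1)` is in `N` times the integral matrices. -/
def Lev (O : Subring R) (c N : ℕ) (X : Matrix (Fin n) (Fin n) R) : Prop :=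
  ∀ i l, ∃ z ∈ O, (c : R) * (X i l - (1 : Matrix (Fin n) (Fin n) R) i l) = (N : R) * z

/-- `a T = u wᵗ + a Z` with `u`, `w`, `Z` integral, `w · e` invertible modulo `a` and `u` primitive modulo `a`. -/
def RankOne (O : Subring R) (a : ℕ) (e : Fin n → R) (T : Matrix (Fin n) (Fin n) R) : Prop :=
  ∃ (u w : Fin n → R) (Z : Matrix (Fin n) (Fin n) R), (∀ i, u i ∈ O) ∧ (∀ i, w i ∈ O) ∧ (∀ i l, Z i l ∈ O) ∧
    (∀ i l, (a : R) * T i l = u i * w l + (a : R) * Z i l) ∧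
    (∃ r ∈ O, ∃ q ∈ O, r * (w ⬝ᵥ e) = 1 + (a : R) * q) ∧
    ∃ v : Fin n → R, (∀ i, v i ∈ O) ∧ ∃ q ∈ O, v ⬝ᵥ u = 1 + (a : R) * q

/- END OF DEFS -/



end Pool.Agent.H497.GQ
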