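import Pool.Agent.H497.GP.Show
import Pool.Agent.H497.GQ.Loc0

set_option autoImplicit false

open scoped TensorProduct Matrix ComplexConjugate
open IsDedekindDomain NumberField

namespace Pool.Agent.H497.GP

open Pool.Agent.H497.GQ

/-- `y` is a unit at all places dividing `a`. -/
def UnitAt {E : Type} [Field E] (a : ℕ) (y : E) : Prop :=
  y ≠ 0 ∧ ∃ d : ℕ, 0 < d ∧ d.Coprime a ∧ IsIntegral ℤ ((d : E) * y) ∧ IsIntegral ℤ ((d : E) * y⁻¹)

open Classical in
/-- The indicator function of the double coset `K g K`. -/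
noncomputable def dc {G : Type} [Group G] (K : Subgroup G) (g x : G) : ℂ :=
  if ∃ k ∈ K, ∃ k' ∈ K, x = k * g * k' then 1 else 0

namespace DefPair

variable (P : DefPair)

/-- `⟨x, y⟩` on `V`. -/
def q (x y : Fin P.n → P.E) : P.E := form (P.c : P.E →+* P.E) P.A x y

/-- `c (g - 1)` and `c (g⁻¹ - 1)` are in `N` times the integral matrices. -/
def Lv (c N : ℕ) (g : P.G) : Prop := Lev P.O c N (P.mat g) ∧ Lev P.O c N (P.mat g⁻¹)

theorem mat_mul (g h : P.G) : P.mat (g * h) = P.mat g * P.mat h := rfl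

theorem mat_one : P.mat 1 = 1 := rfl

theorem mat_inv_mul (g : P.G) : P.mat g⁻¹ * P.mat g = 1 := by
  rw [← mat_mul, inv_mul_cancel, mat_one]

theorem mat_mul_inv (g : P.G) : P.mat g * P.mat g⁻¹ = 1 := by
  rw [← mat_mul, mul_inv_cancel, mat_one]

theorem lev_prod {n : ℕ} {R : Type} [CommRing R] (O : Subring R) (N : ℕ) (X Y : Matrix (Fin n) (Fin n) R)
    (hX : Lev O 1 N X) (hY : Lev O 1 N Y) : Lev O 1 N (X * Y) := by
  classical
  choose zx hzx ex using hX
  choose zy hzy ey using hY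
  simp only [Nat.cast_one, one_mul] at ex ey
  have eX : X = 1 + (N : R) • (Matrix.of fun i l => zx i l) := by
    ext i l
    rw [Matrix.add_apply, Matrix.smul_apply, Matrix.of_apply, smul_eq_mul, ← ex i l]; ring
  have eY : Y = 1 + (N : R) • (Matrix.of fun i l => zy i l) := by
    ext i l
    rw [Matrix.add_apply, Matrix.smul_apply, Matrix.of_apply, smul_eq_mul, ← ey i l]; ring
  intro i l
  refine ⟨zx i l + zy i l + (N : R) * ∑ k, zx i k * zy k l, ?_, ?_⟩
  · exact add_mem (add_mem (hzx _ _) (hzy _ _)) (mul_mem (natCast_mem _ _) (sum_mem fun k _ => mul_mem (hzx _ _) (hzy _ _)))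
  · rw [Nat.cast_one, one_mul, eX, eY, add_mul, one_mul, mul_add, mul_one]
    simp only [Matrix.add_apply, Matrix.smul_apply, Matrix.of_apply, smul_eq_mul, Matrix.smul_mul, Matrix.mul_smul,
      Matrix.mul_apply]
    ring

/-- The principal congruence subgroup of level `N`. -/
noncomputable def KN (N : ℕ) : Subgroup P.G where
  carrier := {g | P.Lv 1 N g}
  mul_mem' := by
    rintro a b ⟨ha, ha'⟩ ⟨hb, hb'⟩
    refine ⟨?_, ?_⟩
    · rw [mat_mul]; exact lev_prod _ _ _ _ ha hb
    · rw [mul_inv_rev, mat_mul]; exact lev_prod _ _ _ _ hb' ha'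
  one_mem' := by
    have h : Lev P.O 1 N (P.mat 1) := by
      intro i l
      exact ⟨0, zero_mem _, by rw [mat_one, sub_self, mul_zero, mul_zero]⟩
    exact ⟨h, by rw [inv_one]; exact h⟩
  inv_mem' := by
    rintro a ⟨ha, ha'⟩
    exact ⟨ha', by rw [inv_inv]; exact ha⟩

/-- `g` is in the principal congruence subgroup of level `N` at all places dividing `N`, and integral at all places dividing
`m` (a multiple of `N`). -/
def Away (N m : ℕ) (g : P.G) : Prop := ∃ c : ℕ, 0 < c ∧ c.Coprime m ∧ P.Lv c N g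

/-- The positive integers `a` prime to `2 m` with `4 a² |⟨e, e⟩| < N²` at all infinite places, such that `det A` and `⟨e, e⟩` are
units at `a` and some integral vector `x` has `⟨x, x⟩ = a` times a unit at `a`, and `⟨x, e⟩` a unit at `a`. -/
structure Good (N m a : ℕ) : Prop where
  pos : 0 < a
  cop : a.Coprime (2 * m)
  small : P.Small (a ^ 2) (N ^ 2)
  det : UnitAt a P.A.det
  ee : UnitAt a (P.q P.e P.e)
  ex : ∃ x : Fin P.n → P.E, (∀ i, IsIntegral ℤ (x i)) ∧ UnitAt a (P.q x x / a) ∧ UnitAt a (P.q x P.e)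

end DefPair

end Pool.Agent.H497.GP
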