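import Pool.Agent.H497.GP.Show

set_option autoImplicit false

open scoped TensorProduct Matrix ComplexConjugate
open IsDedekindDomain NumberField

namespace Pool.Agent.H497.GP

variable {F E : Type} [Field F] [NumberField F] [Field E] [NumberField E] [Algebra F E]

/- END OF DEFS -/

/- helper894 -/


theorem natCast_ap (d : ℕ) (v : HeightOneSpectrum (𝓞 F)) :
    ((d : AF F) v) = (d : v.adicCompletion F) := by
  induction d with
  | zero =>
    rw [Nat.cast_zero, Nat.cast_zero]
    rfl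
  | succ d ih =>
    rw [Nat.cast_succ, Nat.cast_succ, ← ih]
    rfl

theorem inv_int (n : ℕ) (v : HeightOneSpectrum (𝓞 F)) (h : (n : 𝓞 F) ∉ v.asIdeal) :
    ((n : v.adicCompletion F) ≠ 0) ∧
      ((n : v.adicCompletion F))⁻¹ ∈ v.adicCompletionIntegers F := by
  have h1 : Valued.v ((n : v.adicCompletion F)) = 1 := by
    have h2 := HeightOneSpectrum.valuedAdicCompletion_eq_valuation' (v := v) (K := F) (n : F)
    have h3 : v.valuation F (algebraMap (𝓞 F) F (n : 𝓞 F)) = v.intValuation (n : 𝓞 F) :=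
      HeightOneSpectrum.valuation_of_algebraMap v (n : 𝓞 F)
    rw [HeightOneSpectrum.intValuation_eq_one_iff.2 h, map_natCast] at h3
    rw [h3] at h2
    have h4 : ((n : F) : v.adicCompletion F) = (n : v.adicCompletion F) := by
      exact map_natCast (algebraMap F (v.adicCompletion F)) n
    rw [← h4]
    exact h2
  constructor
  · intro h0
    rw [h0, map_zero] at h1
    exact zero_ne_one h1
  · rw [HeightOneSpectrum.mem_adicCompletionIntegers, map_inv₀, h1, inv_one]

/-- integral adele from a function -/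
noncomputable def mkA (f : (v : HeightOneSpectrum (𝓞 F)) → v.adicCompletion F)
    (hf : ∀ v, f v ∈ v.adicCompletionIntegers F) : AF F :=
  ⟨f, Filter.Eventually.of_forall hf⟩

theorem mkA_ap (f : (v : HeightOneSpectrum (𝓞 F)) → v.adicCompletion F)
    (hf : ∀ v, f v ∈ v.adicCompletionIntegers F) (v : HeightOneSpectrum (𝓞 F)) :
    mkA f hf v = f v := rfl

theorem one_tmul_mem (x : AF F) (hx : ∀ v : HeightOneSpectrum (𝓞 F), x v ∈ v.adicCompletionIntegers F) :
    ((1 : E) ⊗ₜ[F] x : AE F E) ∈ OE F E :=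
  Subring.subset_closure (Or.inr ⟨x, hx, rfl⟩)

theorem nat_mul_tmul (d : ℕ) (x : AF F) :
    ((d : AE F E)) * ((1 : E) ⊗ₜ[F] x : AE F E) = (1 : E) ⊗ₜ[F] ((d : AF F) * x) := by
  have h : ((d : AE F E)) = (1 : E) ⊗ₜ[F] (d : AF F) := by
    have h1 := map_natCast (Algebra.TensorProduct.includeRight : AF F →ₐ[F] AE F E) d
    rw [← h1]
    rfl
  rw [h, Algebra.TensorProduct.tmul_mul_tmul, one_mul]

/-- The idempotent `1 ⊗ b` where `b_v = 1` if `v ∣ a` (i.e. `(a : 𝓞 F) ∈ v.asIdeal`) and `b_v = 0` otherwise. If `d` is prime to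
`a` then `d` is a unit at all `v ∣ a` (valuation 1, as `d ∉ v.asIdeal` by Bezout), so `b / d` is an integral adele; at the places
`v ∤ a`, `a` is a unit, so `(1 - b) / a` is an integral adele. -/
theorem idem (a : ℕ) (ha : 0 < a) : ∃ ε : AE F E, ε ∈ OE F E ∧ ε * ε = ε ∧ (∀ c : E →ₐ[F] E, cA F E c ε = ε) ∧
    (∀ d : ℕ, 0 < d → d.Coprime a → ∃ z ∈ OE F E, ε = (d : AE F E) * z) ∧
    ∃ z ∈ OE F E, 1 - ε = (a : AE F E) * z := by
  classical
  have hb1 : ∀ v : HeightOneSpectrum (𝓞 F),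
      (if (a : 𝓞 F) ∈ v.asIdeal then (1 : v.adicCompletion F) else 0) ∈ v.adicCompletionIntegers F := by
    intro v
    split_ifs
    · exact one_mem _
    · exact zero_mem _
  obtain ⟨b, hb⟩ : ∃ b : AF F, b = mkA (fun v => if (a : 𝓞 F) ∈ v.asIdeal then
      (1 : v.adicCompletion F) else 0) hb1 := ⟨_, rfl⟩
  have hbv : ∀ v, b v = if (a : 𝓞 F) ∈ v.asIdeal then (1 : v.adicCompletion F) else 0 := by
    intro v
    rw [hb, mkA_ap]
  refine ⟨(1 : E) ⊗ₜ[F] b, ?_, ?_, ?_, ?_, ?_⟩
  · apply one_tmul_mem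
    intro v
    rw [hbv]
    exact hb1 v
  · rw [Algebra.TensorProduct.tmul_mul_tmul, one_mul]
    congr 1
    apply FiniteAdeleRing.ext
    intro v
    have e : (b * b) v = b v * b v := rfl
    rw [e, hbv]
    split_ifs <;> simp
  · intro c
    simp [cA]
  · intro d hd hda
    have hdv : ∀ v : HeightOneSpectrum (𝓞 F), (a : 𝓞 F) ∈ v.asIdeal → (d : 𝓞 F) ∉ v.asIdeal := by
      intro v h1 h2
      obtain ⟨x, y, hxy⟩ := (Nat.isCoprime_iff_coprime.2 hda)
      have h3 : (1 : 𝓞 F) = (x : 𝓞 F) * (d : 𝓞 F) + (y : 𝓞 F) * (a : 𝓞 F) := by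
        have := congrArg (fun z : ℤ => (z : 𝓞 F)) hxy
        push_cast at this
        exact this.symm
      apply v.isPrime.ne_top
      rw [Ideal.eq_top_iff_one, h3]
      exact v.asIdeal.add_mem (v.asIdeal.mul_mem_left _ h2) (v.asIdeal.mul_mem_left _ h1)
    have hc1 : ∀ v : HeightOneSpectrum (𝓞 F),
        (if (a : 𝓞 F) ∈ v.asIdeal then ((d : v.adicCompletion F))⁻¹ else 0) ∈
          v.adicCompletionIntegers F := by
      intro v
      split_ifs with h
      · exact (inv_int d v (hdv v h)).2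
      · exact zero_mem _
    refine ⟨(1 : E) ⊗ₜ[F] mkA _ hc1, one_tmul_mem _ fun v => ?_, ?_⟩
    · rw [mkA_ap]
      exact hc1 v
    · rw [nat_mul_tmul]
      congr 1
      apply FiniteAdeleRing.ext
      intro v
      have e : ((d : AF F) * mkA _ hc1) v = (d : AF F) v * mkA _ hc1 v := rfl
      rw [e, natCast_ap, mkA_ap, hbv]
      split_ifs with h
      · rw [mul_inv_cancel₀ (inv_int d v (hdv v h)).1]
      · rw [mul_zero]
  · have hc1 : ∀ v : HeightOneSpectrum (𝓞 F),
        (if (a : 𝓞 F) ∈ v.asIdeal then 0 else ((a : v.adicCompletion F))⁻¹) ∈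
          v.adicCompletionIntegers F := by
      intro v
      split_ifs with h
      · exact zero_mem _
      · exact (inv_int a v h).2
    refine ⟨(1 : E) ⊗ₜ[F] mkA _ hc1, one_tmul_mem _ fun v => ?_, ?_⟩
    · rw [mkA_ap]
      exact hc1 v
    · rw [nat_mul_tmul, Algebra.TensorProduct.one_def, ← TensorProduct.tmul_sub]
      congr 1
      apply FiniteAdeleRing.ext
      intro v
      have e : ((a : AF F) * mkA _ hc1) v = (a : AF F) v * mkA _ hc1 v := rfl
      have e2 : ((1 : AF F) - b) v = 1 - b v := rfl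
      rw [e, e2, natCast_ap, mkA_ap, hbv]
      split_ifs with h
      · rw [mul_zero, sub_self]
      · rw [mul_inv_cancel₀ (inv_int a v h).1, sub_zero]

end Pool.Agent.H497.GP
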