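import Mathlib

set_option autoImplicit false

open scoped Matrix

namespace Pool.Agent.H497.GQ

theorem inta_symm {K : Type} [Field K] {n : ℕ} {B : Matrix (Fin n) (Fin n) K} (hB : Bᵀ = B)
    (x y : Fin n → K) : x ⬝ᵥ B *ᵥ y = y ⬝ᵥ B *ᵥ x := by
  rw [Matrix.dotProduct_mulVec, ← Matrix.mulVec_transpose, hB, dotProduct_comm]

/-- a nonzero isotropic vector over the field with `p` elements -/
theorem inta_cw (n : ℕ) (hn : 3 ≤ n) (p : ℕ) [Fact p.Prime] (B : Matrix (Fin n) (Fin n) (ZMod p)) :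
    ∃ x : Fin n → ZMod p, x ≠ 0 ∧ x ⬝ᵥ B *ᵥ x = 0 := by
  classical
  have hp : p.Prime := Fact.out
  obtain ⟨P, hP⟩ : ∃ P : MvPolynomial (Fin n) (ZMod p), P = ∑ i, ∑ j,
      MvPolynomial.C (B i j) * (MvPolynomial.X i * MvPolynomial.X j) := ⟨_, rfl⟩
  have hev : ∀ x : Fin n → ZMod p, MvPolynomial.eval x P = x ⬝ᵥ B *ᵥ x := by
    intro x
    rw [hP]
    simp only [map_sum, map_mul, MvPolynomial.eval_C, MvPolynomial.eval_X, dotProduct,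
      Matrix.mulVec, Finset.mul_sum]
    refine Finset.sum_congr rfl fun i _ => Finset.sum_congr rfl fun j _ => ?_
    ring
  have hdeg : P.totalDegree < Fintype.card (Fin n) := by
    rw [Fintype.card_fin]
    refine lt_of_le_of_lt (b := 2) ?_ (by omega)
    rw [hP]
    refine (MvPolynomial.totalDegree_finsetSum _ _).trans (Finset.sup_le fun i _ => ?_)
    refine (MvPolynomial.totalDegree_finsetSum _ _).trans (Finset.sup_le fun j _ => ?_)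
    refine (MvPolynomial.totalDegree_mul _ _).trans ?_
    rw [MvPolynomial.totalDegree_C, zero_add]
    refine (MvPolynomial.totalDegree_mul _ _).trans ?_
    rw [MvPolynomial.totalDegree_X, MvPolynomial.totalDegree_X]
  have hdvd := char_dvd_card_solutions p hdeg
  have h0 : MvPolynomial.eval (0 : Fin n → ZMod p) P = 0 := by
    rw [hev]
    simp
  by_contra hcon
  push Not at hcon
  have hone : Fintype.card {x : Fin n → ZMod p // MvPolynomial.eval x P = 0} = 1 := by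
    rw [Fintype.card_eq_one_iff]
    refine ⟨⟨0, h0⟩, fun y => Subtype.ext ?_⟩
    by_contra hy
    exact hcon y.1 hy (by rw [← hev]; exact y.2)
  rw [hone] at hdvd
  exact hp.one_lt.ne' (Nat.dvd_one.mp hdvd)

/-- the statement over the field with `p` elements -/
theorem inta_mod (n : ℕ) (hn : 3 ≤ n) (p : ℕ) [Fact p.Prime] (h2 : (2 : ZMod p) ≠ 0)
    (B : Matrix (Fin n) (Fin n) (ZMod p)) (hB : Bᵀ = B) (f : Fin n → ZMod p) (hdet : B.det ≠ 0)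
    (hff : f ⬝ᵥ B *ᵥ f ≠ 0) : ∃ x : Fin n → ZMod p, x ⬝ᵥ B *ᵥ x = 0 ∧ x ⬝ᵥ B *ᵥ f ≠ 0 := by
  classical
  obtain ⟨x₀, hx₀, hiso⟩ := inta_cw n hn p B
  by_cases hxf : x₀ ⬝ᵥ B *ᵥ f = 0
  · have hBx : B *ᵥ x₀ ≠ 0 := fun h => hx₀ (Matrix.eq_zero_of_mulVec_eq_zero hdet h)
    obtain ⟨i, hi⟩ := Function.ne_iff.mp hBx
    obtain ⟨z₁, hz₁⟩ : ∃ z : Fin n → ZMod p, z ⬝ᵥ B *ᵥ x₀ = 1 := by
      refine ⟨Pi.single i ((B *ᵥ x₀) i)⁻¹, ?_⟩
      rw [single_dotProduct]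
      exact inv_mul_cancel₀ hi
    obtain ⟨z, hz, hzf⟩ : ∃ z : Fin n → ZMod p, z ⬝ᵥ B *ᵥ x₀ = 1 ∧ z ⬝ᵥ B *ᵥ f ≠ 0 := by
      by_cases h : z₁ ⬝ᵥ B *ᵥ f = 0
      · refine ⟨z₁ + f, ?_, ?_⟩
        · rw [add_dotProduct, hz₁, inta_symm hB f x₀, hxf, add_zero]
        · rw [add_dotProduct, h, zero_add]
          exact hff
      · exact ⟨z₁, hz₁, h⟩
    have hz' : x₀ ⬝ᵥ B *ᵥ z = 1 := by rw [inta_symm hB]; exact hz
    refine ⟨(2 : ZMod p) • z - (z ⬝ᵥ B *ᵥ z) • x₀, ?_, ?_⟩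
    · simp only [Matrix.mulVec_sub, Matrix.mulVec_smul, dotProduct_sub, sub_dotProduct,
        dotProduct_smul, smul_dotProduct, smul_eq_mul, hz, hz', hiso]
      ring
    · simp only [sub_dotProduct, smul_dotProduct, smul_eq_mul, hxf, mul_zero, sub_zero]
      exact mul_ne_zero h2 hzf
  · exact ⟨x₀, hiso, hxf⟩

/-- Isotropic vectors modulo an odd prime. There is `x₀ ≢ 0 mod p` with `p ∣ ⟨x₀, x₀⟩`: Chevalley-Warning
(`char_dvd_card_solutions` for the polynomial `∑ A_ij X_i X_j` of degree `2 < n` over `ZMod p`: the number of zeros is divisible by `p`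
and `0` is one). If `p ∤ ⟨x₀, e⟩` take `x = x₀`. Otherwise: as `p ∤ det A`, `A x₀ ≢ 0 mod p`, so there is `z` with `⟨x₀, z⟩ ≡ 1 mod p`, and
one may assume `⟨z, e⟩ ≢ 0 mod p` (otherwise replace `z` by `z + e`: `⟨x₀, z + e⟩ ≡ 1`, `⟨z + e, e⟩ ≡ ⟨e, e⟩ ≢ 0`); then
`x = 2 z - ⟨z, z⟩ x₀` has `⟨x, x⟩ ≡ 4⟨z, z⟩ - 4⟨z, z⟩ = 0` and `⟨x, e⟩ ≡ 2⟨z, e⟩ ≢ 0`. -/
theorem exists_isotropic (n : ℕ) (hn : 3 ≤ n) (A : Matrix (Fin n) (Fin n) ℤ) (hA : Aᵀ = A) (e : Fin n → ℤ) (p : ℕ) (hp : p.Prime)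
    (h2 : p ≠ 2) (hdet : ¬ (p : ℤ) ∣ A.det) (hee : ¬ (p : ℤ) ∣ e ⬝ᵥ A *ᵥ e) :
    ∃ x : Fin n → ℤ, (p : ℤ) ∣ x ⬝ᵥ A *ᵥ x ∧ ¬ (p : ℤ) ∣ x ⬝ᵥ A *ᵥ e := by
  have : Fact p.Prime := ⟨hp⟩
  have hcast : ∀ u v : Fin n → ℤ, ((u ⬝ᵥ A *ᵥ v : ℤ) : ZMod p) =
      (fun i => (u i : ZMod p)) ⬝ᵥ (A.map (Int.castRingHom (ZMod p))) *ᵥ (fun i => (v i : ZMod p)) := by
    intro u v
    simp only [dotProduct, Matrix.mulVec, Matrix.map_apply, Int.coe_castRingHom]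
    push_cast
    rfl
  have h2' : (2 : ZMod p) ≠ 0 := by
    intro h
    have h3 : ((2 : ℕ) : ZMod p) = 0 := by exact_mod_cast h
    rw [ZMod.natCast_eq_zero_iff] at h3
    exact h2 ((Nat.prime_dvd_prime_iff_eq hp Nat.prime_two).mp h3)
  have hB : (A.map (Int.castRingHom (ZMod p)))ᵀ = A.map (Int.castRingHom (ZMod p)) := by
    rw [← Matrix.transpose_map, hA]
  have hd : (A.map (Int.castRingHom (ZMod p))).det ≠ 0 := by
    intro h
    apply hdet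
    rw [← ZMod.intCast_zmod_eq_zero_iff_dvd]
    have h1 := RingHom.map_det (Int.castRingHom (ZMod p)) A
    rw [RingHom.mapMatrix_apply, h] at h1
    exact h1
  have hf : (fun i => (e i : ZMod p)) ⬝ᵥ (A.map (Int.castRingHom (ZMod p))) *ᵥ
      (fun i => (e i : ZMod p)) ≠ 0 := by
    rw [← hcast]
    exact fun h => hee ((ZMod.intCast_zmod_eq_zero_iff_dvd _ p).mp h)
  obtain ⟨x, hx1, hx2⟩ := inta_mod n hn p h2' _ hB (fun i => (e i : ZMod p)) hd hf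
  have hlift : (fun i => (((x i).val : ℤ) : ZMod p)) = x := by
    funext i
    push_cast
    rw [ZMod.natCast_val, ZMod.cast_id', id]
  refine ⟨fun i => ((x i).val : ℤ), ?_, ?_⟩
  · rw [← ZMod.intCast_zmod_eq_zero_iff_dvd, hcast, hlift]
    exact hx1
  · rw [← ZMod.intCast_zmod_eq_zero_iff_dvd, hcast, hlift]
    exact hx2

end Pool.Agent.H497.GQ
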