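import Pool.Agent.H497.GQ.IntA

set_option autoImplicit false

open scoped Matrix

namespace Pool.Agent.H497.GQ



namespace Intb

variable {n : ℕ} {A : Matrix (Fin n) (Fin n) ℤ}

theorem symm (hA : Aᵀ = A) (x y : Fin n → ℤ) : x ⬝ᵥ A *ᵥ y = y ⬝ᵥ A *ᵥ x := by
  rw [Matrix.dotProduct_mulVec, ← Matrix.mulVec_transpose, hA, dotProduct_comm]

theorem expand (hA : Aᵀ = A) (x w : Fin n → ℤ) (t : ℤ) :
    (x + t • w) ⬝ᵥ A *ᵥ (x + t • w) =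
      x ⬝ᵥ A *ᵥ x + 2 * t * (x ⬝ᵥ A *ᵥ w) + t ^ 2 * (w ⬝ᵥ A *ᵥ w) := by
  rw [Matrix.mulVec_add, Matrix.mulVec_smul, dotProduct_add, add_dotProduct, add_dotProduct,
    smul_dotProduct, dotProduct_smul, dotProduct_smul, smul_dotProduct, symm hA w x]
  simp only [smul_eq_mul]
  ring

theorem expand' (x w e : Fin n → ℤ) (t : ℤ) :
    (x + t • w) ⬝ᵥ A *ᵥ e = x ⬝ᵥ A *ᵥ e + t * (w ⬝ᵥ A *ᵥ e) := by
  rw [add_dotProduct, smul_dotProduct, smul_eq_mul]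

theorem step (hA : Aᵀ = A) (e : Fin n → ℤ) {p : ℕ} (hp : p.Prime) (h2 : p ≠ 2) {x : Fin n → ℤ}
    {j : ℕ} (hj : 1 ≤ j) {m : ℤ} (hx : x ⬝ᵥ A *ᵥ x = (p : ℤ) ^ j * m)
    (hxe : ¬ (p : ℤ) ∣ x ⬝ᵥ A *ᵥ e) (τ : ℤ) :
    ∃ (x' : Fin n → ℤ) (m' : ℤ), x' ⬝ᵥ A *ᵥ x' = (p : ℤ) ^ j * m' ∧ (p : ℤ) ∣ m' - τ ∧
      ¬ (p : ℤ) ∣ x' ⬝ᵥ A *ᵥ e := by
  have hpi : Irreducible (p : ℤ) := (Nat.prime_iff_prime_int.1 hp).irreducible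
  have hpp : Prime (p : ℤ) := Nat.prime_iff_prime_int.1 hp
  obtain ⟨i, rfl⟩ : ∃ i, j = i + 1 := ⟨j - 1, by omega⟩
  have h3 : ¬ (p : ℤ) ∣ 2 * (x ⬝ᵥ A *ᵥ e) := by
    intro h
    rcases hpp.dvd_or_dvd h with h4 | h4
    · have h5 : p ∣ 2 := by exact_mod_cast h4
      exact h2 ((Nat.prime_dvd_prime_iff_eq hp Nat.prime_two).1 h5)
    · exact hxe h4
  obtain ⟨u, v, huv⟩ := hpi.coprime_iff_not_dvd.2 h3
  set c : ℤ := v * (τ - m) with hc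
  refine ⟨x + ((p : ℤ) ^ (i + 1) * c) • e,
    m + 2 * c * (x ⬝ᵥ A *ᵥ e) + (p : ℤ) ^ (i + 1) * c ^ 2 * (e ⬝ᵥ A *ᵥ e), ?_, ?_, ?_⟩
  · rw [expand hA, hx]
    ring
  · refine ⟨-(u * (τ - m)) + (p : ℤ) ^ i * c ^ 2 * (e ⬝ᵥ A *ᵥ e), ?_⟩
    have e1 : 2 * c * (x ⬝ᵥ A *ᵥ e) = (τ - m) * (1 - u * p) := by
      rw [hc]
      linear_combination (τ - m) * huv
    rw [e1, pow_succ]
    ring
  · rw [expand']
    intro h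
    apply hxe
    have h4 : (p : ℤ) ∣ (p : ℤ) ^ (i + 1) * c * (e ⬝ᵥ A *ᵥ e) :=
      ⟨(p : ℤ) ^ i * c * (e ⬝ᵥ A *ᵥ e), by rw [pow_succ]; ring⟩
    exact (dvd_add_left h4).1 h

theorem lift (hn : 3 ≤ n) (hA : Aᵀ = A) (e : Fin n → ℤ) {p : ℕ} (hp : p.Prime) (h2 : p ≠ 2)
    (hdet : ¬ (p : ℤ) ∣ A.det) (hee : ¬ (p : ℤ) ∣ e ⬝ᵥ A *ᵥ e) (i : ℕ) :
    ∃ (x : Fin n → ℤ) (m : ℤ), x ⬝ᵥ A *ᵥ x = (p : ℤ) ^ (i + 1) * m ∧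
      ¬ (p : ℤ) ∣ x ⬝ᵥ A *ᵥ e := by
  induction i with
  | zero =>
    obtain ⟨x, ⟨m, hm⟩, hx⟩ := exists_isotropic n hn A hA e p hp h2 hdet hee
    exact ⟨x, m, by rw [hm]; ring, hx⟩
  | succ i ih =>
    obtain ⟨x, m, hx, hxe⟩ := ih
    obtain ⟨x', m', h3, ⟨s, hs⟩, h4⟩ := step hA e hp h2 (by omega) hx hxe 0
    refine ⟨x', s, ?_, h4⟩
    rw [h3, pow_succ (p : ℤ) (i + 1)]
    rw [sub_zero] at hs
    rw [hs]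
    ring

theorem crt_part (hA : Aᵀ = A) (e : Fin n → ℤ) {b : ℤ} {x y : Fin n → ℤ} {ε δ : ℤ}
    (hx : x ⬝ᵥ A *ᵥ x = b * ε) (hbε : IsCoprime b ε) (hbe : IsCoprime b (x ⬝ᵥ A *ᵥ e))
    {w : Fin n → ℤ} (hy : y = x + (b ^ 2) • w) {c : ℤ} (hb : b ≠ 0)
    (hyδ : y ⬝ᵥ A *ᵥ y = b * c * δ) : IsCoprime b δ ∧ IsCoprime b (y ⬝ᵥ A *ᵥ e) := by
  constructor
  · have h1 : c * δ = ε + b * (2 * (x ⬝ᵥ A *ᵥ w) + b ^ 2 * (w ⬝ᵥ A *ᵥ w)) := by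
      have h2 : b * (c * δ) = b * (ε + b * (2 * (x ⬝ᵥ A *ᵥ w) + b ^ 2 * (w ⬝ᵥ A *ᵥ w))) := by
        rw [← mul_assoc, ← hyδ, hy, expand hA, hx]
        ring
      exact mul_left_cancel₀ hb h2
    have h2 : IsCoprime b (c * δ) := by
      rw [h1]
      exact hbε.add_mul_left_right _
    exact h2.of_mul_right_right
  · rw [hy, expand']
    have h1 : x ⬝ᵥ A *ᵥ e + b ^ 2 * (w ⬝ᵥ A *ᵥ e) = x ⬝ᵥ A *ᵥ e + b * (b * (w ⬝ᵥ A *ᵥ e)) := by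
      ring
    rw [h1]
    exact hbe.add_mul_left_right _

end Intb

open Intb in
/-- Vectors of norm `a` times a unit at `a`. Induction with `Nat.recOnPosPrimePosCoprime` (or similar).
(prime power `p^k`, `k ≥ 1`) `exists_isotropic` gives `x` with `p ∣ ⟨x, x⟩`, `p ∤ ⟨x, e⟩`. Lifting: if `p^j ∣ ⟨x, x⟩`, `p ∤ ⟨x, e⟩`,
`j ≥ 1`, then `x' = x + p^j c e` has `⟨x', x'⟩ = ⟨x, x⟩ + 2 p^j c ⟨x, e⟩ + p^(2j) c² ⟨e, e⟩` and `⟨x', e⟩ ≡ ⟨x, e⟩ mod p`, so `c` can be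
chosen with `p^(j+1) ∣ ⟨x', x'⟩`, or with `p^j` exactly dividing `⟨x', x'⟩` (`2 ⟨x, e⟩` is a unit mod `p`). So there is `x` with
`⟨x, x⟩ = p^k ε`, `p ∤ ε`, `p ∤ ⟨x, e⟩`.
(coprime `b`, `c` > 1) choose `x ≡ x_b mod b²`, `x ≡ x_c mod c²` (Chinese remainder, coordinatewise): `⟨x, x⟩ ≡ b ε_b mod b²`, so
`⟨x, x⟩ = b ε'` with `ε' ≡ ε_b mod b` prime to `b`, the same for `c`, so `⟨x, x⟩ = b c ε` with `ε` prime to `b c`; and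
`⟨x, e⟩ ≡ ⟨x_b, e⟩ mod b`. (`a = 1`: `x = 0`, all coprimality is trivial.) -/
theorem exists_norm (n : ℕ) (hn : 3 ≤ n) (A : Matrix (Fin n) (Fin n) ℤ) (hA : Aᵀ = A) (e : Fin n → ℤ) (a : ℕ) (ha : 0 < a)
    (h2 : a.Coprime 2) (hdet : IsCoprime (a : ℤ) A.det) (hee : IsCoprime (a : ℤ) (e ⬝ᵥ A *ᵥ e)) :
    ∃ (x : Fin n → ℤ) (ε : ℤ), x ⬝ᵥ A *ᵥ x = a * ε ∧ IsCoprime (a : ℤ) ε ∧ IsCoprime (a : ℤ) (x ⬝ᵥ A *ᵥ e) := by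
  induction a using Nat.recOnPosPrimePosCoprime with
  | prime_pow p k hp hk =>
    have hpi : Irreducible (p : ℤ) := (Nat.prime_iff_prime_int.1 hp).irreducible
    obtain ⟨i, rfl⟩ : ∃ i, k = i + 1 := ⟨k - 1, by omega⟩
    push_cast at hdet hee ⊢
    have hp2 : p ≠ 2 := by
      rintro rfl
      have h3 := Nat.Coprime.coprime_dvd_left (dvd_pow_self 2 (Nat.succ_ne_zero i)) h2
      norm_num at h3
    have hd1 : ¬ (p : ℤ) ∣ A.det :=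
      hpi.coprime_iff_not_dvd.1 (hdet.of_isCoprime_of_dvd_left (dvd_pow_self _ (Nat.succ_ne_zero i)))
    have hd2 : ¬ (p : ℤ) ∣ e ⬝ᵥ A *ᵥ e :=
      hpi.coprime_iff_not_dvd.1 (hee.of_isCoprime_of_dvd_left (dvd_pow_self _ (Nat.succ_ne_zero i)))
    obtain ⟨x, m, hx, hxe⟩ := lift hn hA e hp hp2 hd1 hd2 i
    obtain ⟨x', m', h3, h4, h5⟩ := step hA e hp hp2 (by omega) hx hxe 1
    refine ⟨x', m', h3, IsCoprime.pow_left (hpi.coprime_iff_not_dvd.2 ?_),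
      IsCoprime.pow_left (hpi.coprime_iff_not_dvd.2 h5)⟩
    intro h6
    have h7 : (p : ℤ) ∣ 1 := by
      have := dvd_sub h6 h4
      rwa [sub_sub_cancel] at this
    exact hpi.not_isUnit (isUnit_of_dvd_one h7)
  | zero => exact absurd ha (lt_irrefl 0)
  | one =>
    refine ⟨0, 0, ?_, ?_, ?_⟩
    · simp
    · simpa using isCoprime_one_left
    · simpa using isCoprime_one_left
  | coprime b c hb hc hbc ihb ihc =>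
    push_cast at hdet hee ⊢
    obtain ⟨x, ε, hx1, hx2, hx3⟩ := ihb (by omega) (h2.coprime_mul_right) hdet.of_mul_left_left
      hee.of_mul_left_left
    obtain ⟨y, δ, hy1, hy2, hy3⟩ := ihc (by omega) (h2.coprime_mul_left) hdet.of_mul_left_right
      hee.of_mul_left_right
    have hbcZ : IsCoprime (b : ℤ) (c : ℤ) := Nat.isCoprime_iff_coprime.2 hbc
    obtain ⟨u, v, huv⟩ := hbcZ.pow (m := 2) (n := 2)
    set z : Fin n → ℤ := x + ((b : ℤ) ^ 2) • (u • (y - x)) with hz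
    have hz' : z = y + ((c : ℤ) ^ 2) • (v • (x - y)) := by
      rw [hz]
      funext i
      simp only [Pi.add_apply, Pi.smul_apply, Pi.sub_apply, smul_eq_mul]
      linear_combination (y i - x i) * huv
    have hbd : (b : ℤ) ∣ z ⬝ᵥ A *ᵥ z := by
      rw [hz, expand hA, hx1]
      exact ⟨ε + 2 * b * (x ⬝ᵥ A *ᵥ (u • (y - x))) +
        b ^ 3 * ((u • (y - x)) ⬝ᵥ A *ᵥ (u • (y - x))), by ring⟩
    have hcd : (c : ℤ) ∣ z ⬝ᵥ A *ᵥ z := by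
      rw [hz', expand hA, hy1]
      exact ⟨δ + 2 * c * (y ⬝ᵥ A *ᵥ (v • (x - y))) +
        c ^ 3 * ((v • (x - y)) ⬝ᵥ A *ᵥ (v • (x - y))), by ring⟩
    obtain ⟨ρ, hρ⟩ := hbcZ.mul_dvd hbd hcd
    have hb0 : (b : ℤ) ≠ 0 := by exact_mod_cast (by omega : b ≠ 0)
    have hc0 : (c : ℤ) ≠ 0 := by exact_mod_cast (by omega : c ≠ 0)
    obtain ⟨p1, p2⟩ := crt_part hA e hx1 hx2 hx3 hz hb0 hρ
    obtain ⟨q1, q2⟩ := crt_part hA e hy1 hy2 hy3 hz' hc0 (c := (b : ℤ)) (δ := ρ)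
      (by rw [hρ]; ring)
    exact ⟨z, ρ, hρ, p1.mul_left q1, p2.mul_left q2⟩

end Pool.Agent.H497.GQ
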