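import Pool.Agent.H497.GQ.Loc0

set_option autoImplicit false

open scoped Matrix

namespace Pool.Agent.H497.GQ

variable {n : ℕ} {R : Type} [CommRing R]



/-! ### Integral matrices -/

/-- All entries are in `O`. -/
def IntM (O : Subring R) (X : Matrix (Fin n) (Fin n) R) : Prop := ∀ i l, X i l ∈ O

theorem IntM.mul {O : Subring R} {X Y : Matrix (Fin n) (Fin n) R} (hX : IntM O X)
    (hY : IntM O Y) : IntM O (X * Y) := by
  intro i l
  rw [Matrix.mul_apply]
  exact Subring.sum_mem O (fun j _ => O.mul_mem (hX i j) (hY j l))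

theorem IntM.add {O : Subring R} {X Y : Matrix (Fin n) (Fin n) R} (hX : IntM O X)
    (hY : IntM O Y) : IntM O (X + Y) := by
  intro i l
  rw [Matrix.add_apply]
  exact O.add_mem (hX i l) (hY i l)

theorem IntM.smul {O : Subring R} {X : Matrix (Fin n) (Fin n) R} (hX : IntM O X) {c : R}
    (hc : c ∈ O) : IntM O (c • X) := by
  intro i l
  rw [Matrix.smul_apply, smul_eq_mul]
  exact O.mul_mem hc (hX i l)

theorem IntM.one (O : Subring R) : IntM O (1 : Matrix (Fin n) (Fin n) R) := by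
  intro i l
  rw [Matrix.one_apply]
  split_ifs
  · exact O.one_mem
  · exact O.zero_mem

theorem nat_mem (O : Subring R) (m : ℕ) : (m : R) ∈ O := natCast_mem O m

theorem lev_exists (O : Subring R) (c N : ℕ) (X : Matrix (Fin n) (Fin n) R) (h : Lev O c N X) :
    ∃ Z : Matrix (Fin n) (Fin n) R, IntM O Z ∧ (c : R) • X = (c : R) • 1 + (N : R) • Z := by
  choose z hz hz2 using h
  refine ⟨Matrix.of z, fun i l => hz i l, ?_⟩
  ext i l
  rw [Matrix.add_apply, Matrix.smul_apply, Matrix.smul_apply, Matrix.smul_apply, smul_eq_mul,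
    smul_eq_mul, smul_eq_mul, Matrix.of_apply, ← hz2 i l]
  ring

/-- Products: `(a b) (k T₂ k' T - 1) = (a b)((k - 1) T₂ k' T + (T₂ - 1) k' T + (k' - 1) T + (T - 1))`, each term is in `N` times the
integral matrices (`b T₂ = b + b (T₂ - 1)` and `a T` are integral). -/
theorem lev_mul (O : Subring R) (N a b : ℕ) (k k' T T₂ : Matrix (Fin n) (Fin n) R)
    (hk : Lev O 1 N k) (hk' : Lev O 1 N k') (hT : Lev O a N T) (hT₂ : Lev O b N T₂) :
    Lev O (a * b) N (k * T₂ * k' * T) := by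
  obtain ⟨A, hA, hA2⟩ := lev_exists O 1 N k hk
  obtain ⟨B, hB, hB2⟩ := lev_exists O b N T₂ hT₂
  obtain ⟨C, hC, hC2⟩ := lev_exists O 1 N k' hk'
  obtain ⟨D, hD, hD2⟩ := lev_exists O a N T hT
  rw [Nat.cast_one, one_smul, one_smul] at hA2 hC2
  obtain ⟨Q, hQ⟩ : ∃ Q : Matrix (Fin n) (Fin n) R, Q = (b : R) • T₂ := ⟨_, rfl⟩
  obtain ⟨S, hS⟩ : ∃ S : Matrix (Fin n) (Fin n) R, S = (a : R) • T := ⟨_, rfl⟩
  rw [← hQ] at hB2
  rw [← hS] at hD2
  have hQI : IntM O Q := by
    rw [hB2]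
    exact ((IntM.one O).smul (nat_mem O b)).add (hB.smul (nat_mem O N))
  have hSI : IntM O S := by
    rw [hD2]
    exact ((IntM.one O).smul (nat_mem O a)).add (hD.smul (nat_mem O N))
  have hkI : IntM O k' := by
    rw [hC2]
    exact (IntM.one O).add (hC.smul (nat_mem O N))
  have hmain : ((a * b : ℕ) : R) • (k * T₂ * k' * T) = ((a * b : ℕ) : R) • 1 +
      (N : R) • (A * (Q * k' * S) + B * (k' * S) + (b : R) • (C * S) + (b : R) • D) := by
    have h1 : ((a * b : ℕ) : R) • (k * T₂ * k' * T) = k * (Q * k' * S) := by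
      rw [hQ, hS]
      simp only [Matrix.smul_mul, Matrix.mul_smul, Matrix.mul_assoc, smul_smul]
      push_cast
      rfl
    have h2 : k * (Q * k' * S) = Q * k' * S + (N : R) • (A * (Q * k' * S)) := by
      conv_lhs => rw [hA2]
      rw [Matrix.add_mul, Matrix.one_mul, Matrix.smul_mul]
    have h3 : Q * k' * S = (b : R) • (k' * S) + (N : R) • (B * (k' * S)) := by
      conv_lhs => rw [hB2]
      rw [Matrix.mul_assoc, Matrix.add_mul, Matrix.smul_mul, Matrix.one_mul, Matrix.smul_mul]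
    have h4 : k' * S = S + (N : R) • (C * S) := by
      conv_lhs => rw [hC2]
      rw [Matrix.add_mul, Matrix.one_mul, Matrix.smul_mul]
    rw [h1, h2]
    conv_lhs =>
      lhs
      rw [h3]
      lhs
      rw [h4]
    conv_lhs =>
      lhs
      lhs
      rw [smul_add]
      lhs
      rw [hD2]
    rw [smul_add, smul_smul, smul_add, smul_add, smul_add]
    have h5 : ((a * b : ℕ) : R) = (b : R) * (a : R) := by push_cast; ring
    rw [h5, smul_comm (N : R) (b : R) (C * S), smul_comm (N : R) (b : R) D]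
    abel
  intro i l
  refine ⟨(A * (Q * k' * S) + B * (k' * S) + (b : R) • (C * S) + (b : R) • D) i l, ?_, ?_⟩
  · exact ((((hA.mul ((hQI.mul hkI).mul hSI)).add (hB.mul (hkI.mul hSI))).add
      ((hC.mul hSI).smul (nat_mem O b))).add (hD.smul (nat_mem O b))) i l
  · have h1 := congrFun (congrFun hmain i) l
    rw [Matrix.smul_apply, Matrix.add_apply, Matrix.smul_apply, Matrix.smul_apply, smul_eq_mul,
      smul_eq_mul, smul_eq_mul] at h1
    rw [mul_sub, h1]
    ring

/-- `T h = k T₂ k'`, `h e = e`, `b T₂` integral: then `b T e = b T h e = k (b T₂) k' e` is integral. Multiply by `a`: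
`b (a T e) = b (u (w·e) + a Z e)` is in `a O`, so `b (w·e) u_i` in `a O` for all `i`, take the combination with `v`:
`b (w·e) (1 + a q)` in `a O`, so `b (w·e)` in `a O`, multiply by `r`: `b (1 + a q)` in `a O`, so `b` in `a O`. -/
theorem tri (O : Subring R) (a b N : ℕ) (e : Fin n → R) (he : ∀ i, e i ∈ O)
    (T T₂ h k k' : Matrix (Fin n) (Fin n) R) (hT : RankOne O a e T) (hb : ∀ i l, (b : R) * T₂ i l ∈ O)
    (hk : ∀ i l, k i l ∈ O) (hk' : ∀ i l, k' i l ∈ O) (hhe : h *ᵥ e = e) (heq : T * h = k * T₂ * k') :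
    ∃ z ∈ O, (b : R) = (a : R) * z := by
  obtain ⟨u, w, Z, hu, hw, hZ, hTuw, ⟨r, hr, q, hq, hrw⟩, v, hv, q', hq', hvu⟩ := hT
  have hTe : T *ᵥ e = (k * T₂ * k') *ᵥ e := by
    rw [← heq, ← Matrix.mulVec_mulVec, hhe]
  -- the vector `b T e` is integral
  have hint : ∀ i, (b : R) * (T *ᵥ e) i ∈ O := by
    intro i
    have h1 : IntM O (k * ((b : R) • T₂) * k') := by
      refine IntM.mul (IntM.mul hk ?_) hk'
      intro i l
      rw [Matrix.smul_apply, smul_eq_mul]
      exact hb i l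
    have h2 : (b : R) * (T *ᵥ e) i = ((k * ((b : R) • T₂) * k') *ᵥ e) i := by
      rw [hTe, Matrix.mul_smul, Matrix.smul_mul, Matrix.smul_mulVec, Pi.smul_apply, smul_eq_mul]
    rw [h2]
    unfold Matrix.mulVec dotProduct
    exact Subring.sum_mem O (fun j _ => O.mul_mem (h1 i j) (he j))
  obtain ⟨s, hs⟩ : ∃ s : R, s = w ⬝ᵥ e := ⟨_, rfl⟩
  have hsO : s ∈ O := by
    rw [hs]
    unfold dotProduct
    exact Subring.sum_mem O (fun j _ => O.mul_mem (hw j) (he j))
  have hZe : ∀ i, (Z *ᵥ e) i ∈ O := by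
    intro i
    unfold Matrix.mulVec dotProduct
    exact Subring.sum_mem O (fun j _ => O.mul_mem (hZ i j) (he j))
  have haT : ∀ i, (a : R) * (T *ᵥ e) i = u i * s + (a : R) * (Z *ᵥ e) i := by
    intro i
    rw [hs]
    unfold Matrix.mulVec dotProduct
    rw [Finset.mul_sum, Finset.mul_sum, Finset.mul_sum, ← Finset.sum_add_distrib]
    refine Finset.sum_congr rfl (fun j _ => ?_)
    have h1 := hTuw i j
    linear_combination e j * h1
  have h1 : ∀ i, ∃ z ∈ O, (b : R) * s * u i = (a : R) * z := by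
    intro i
    refine ⟨(b : R) * (T *ᵥ e) i - (b : R) * (Z *ᵥ e) i,
      O.sub_mem (hint i) (O.mul_mem (nat_mem O b) (hZe i)), ?_⟩
    linear_combination -(b : R) * haT i
  choose z hz hz2 using h1
  have h2 : (b : R) * s * (v ⬝ᵥ u) = (a : R) * (v ⬝ᵥ z) := by
    unfold dotProduct
    rw [Finset.mul_sum, Finset.mul_sum]
    refine Finset.sum_congr rfl (fun j _ => ?_)
    linear_combination v j * hz2 j
  have hvz : v ⬝ᵥ z ∈ O := by
    unfold dotProduct
    exact Subring.sum_mem O (fun j _ => O.mul_mem (hv j) (hz j))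
  rw [hvu] at h2
  rw [← hs] at hrw
  -- `b s = a (v·z - b s q')`, and `b (1 + a q) = b r s`
  refine ⟨r * (v ⬝ᵥ z - (b : R) * s * q') - (b : R) * q, ?_, ?_⟩
  · refine O.sub_mem (O.mul_mem hr (O.sub_mem hvz ?_)) (O.mul_mem (nat_mem O b) hq)
    exact O.mul_mem (O.mul_mem (nat_mem O b) hsO) hq'
  · linear_combination r * h2 - (b : R) * hrw


end Pool.Agent.H497.GQ
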