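import Mathlib

set_option autoImplicit false

namespace Pool.Agent.H497.GQ

/-- The vectors `(l i b)_{b ∈ B}`, `Q i`, span `ℂ^B` (otherwise a nonzero functional vanishes on the span, `Submodule.exists_le_ker_of_lt_top`),
so they contain a basis (`exists_linearIndependent`), which has `B.card` elements; choose one index for each basis vector. -/
theorem distinct {ι : Type*} (Q : ι → Prop) (B : Finset ℕ) (l : ι → ℕ → ℂ)
    (h : ∀ c : ℕ → ℂ, (∃ b ∈ B, c b ≠ 0) → ∃ i, Q i ∧ ∑ b ∈ B, c b * l i b ≠ 0) :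
    ∃ s : Finset ι, s.card = B.card ∧ (∀ i ∈ s, Q i) ∧ ∀ i ∈ s, ∀ i' ∈ s, i ≠ i' → ∃ b ∈ B, l i b ≠ l i' b := by
  classical
  obtain ⟨v, hv⟩ : ∃ v : ι → (B → ℂ), ∀ i b, v i b = l i b.1 := ⟨fun i b => l i b.1, fun _ _ => rfl⟩
  have hspan : Submodule.span ℂ {x | ∃ i, Q i ∧ v i = x} = ⊤ := by
    by_contra hne
    obtain ⟨f, hf0, hf⟩ := Submodule.exists_le_ker_of_lt_top _ (lt_top_iff_ne_top.mpr hne)
    have hsum : ∀ x : B → ℂ, f x = ∑ b : B, x b * f (Pi.single b 1) := by
      intro x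
      rw [LinearMap.pi_apply_eq_sum_univ f x]
      refine Finset.sum_congr rfl fun b _ => ?_
      rw [smul_eq_mul]
      congr 2
      funext j
      rw [Pi.single_apply]
      congr 1
      exact propext eq_comm
    obtain ⟨c, hc⟩ : ∃ c : ℕ → ℂ, ∀ b, c b = if hb : b ∈ B then f (Pi.single ⟨b, hb⟩ 1) else 0 := ⟨_, fun _ => rfl⟩
    have hex : ∃ b ∈ B, c b ≠ 0 := by
      by_contra hn
      push Not at hn
      apply hf0
      apply LinearMap.ext
      intro x
      rw [hsum]
      rw [Finset.sum_eq_zero]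
      · rfl
      · intro b _
        have h1 := hn b.1 b.2
        rw [hc, dif_pos b.2] at h1
        rw [h1, mul_zero]
    obtain ⟨i, hi, hne'⟩ := h c hex
    apply hne'
    have h1 : f (v i) = 0 := hf (Submodule.subset_span ⟨i, hi, rfl⟩)
    rw [hsum] at h1
    rw [← h1, ← Finset.sum_coe_sort B]
    refine Finset.sum_congr rfl fun b _ => ?_
    rw [hv, hc, dif_pos b.2, mul_comm]
  obtain ⟨b, hb1, hb2, hb3⟩ := exists_linearIndependent ℂ {x | ∃ i, Q i ∧ v i = x}
  rw [hspan] at hb2
  have hbas : Module.Basis b ℂ (B → ℂ) := Module.Basis.mk hb3 (by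
    rw [Subtype.range_coe, hb2])
  have hfin : Finite b := hb3.finite
  have := Fintype.ofFinite b
  have hcard : Fintype.card b = B.card := by
    have h1 := Module.finrank_eq_card_basis hbas
    rw [Module.finrank_fintype_fun_eq_card, Fintype.card_coe] at h1
    exact h1.symm
  have hch : ∀ x : b, ∃ i, Q i ∧ v i = x.1 := fun x => hb1 x.2
  choose g hg1 hg2 using hch
  have hginj : Function.Injective g := by
    intro x y hxy
    apply Subtype.ext
    rw [← hg2 x, ← hg2 y, hxy]
  refine ⟨Finset.univ.map ⟨g, hginj⟩, ?_, ?_, ?_⟩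
  · rw [Finset.card_map, Finset.card_univ, hcard]
  · intro i hi
    obtain ⟨x, _, rfl⟩ := Finset.mem_map.mp hi
    exact hg1 x
  · intro i hi i' hi' hne
    obtain ⟨x, _, rfl⟩ := Finset.mem_map.mp hi
    obtain ⟨y, _, rfl⟩ := Finset.mem_map.mp hi'
    by_contra hn
    push Not at hn
    apply hne
    have h1 : x = y := by
      apply Subtype.ext
      rw [← hg2 x, ← hg2 y]
      funext b
      rw [hv, hv]
      exact hn b.1 b.2
    rw [h1]

end Pool.Agent.H497.GQ
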