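import Pool.Agent.H497.GQ.Term

set_option autoImplicit false

open scoped TensorProduct Matrix ComplexConjugate
open IsDedekindDomain NumberField

namespace Pool.Agent.H497.GP

variable {Γ G U ι : Type*} [Group Γ] [Group G] [NormedAddCommGroup U] [InnerProductSpace ℂ U]

/-- The functional `ψ ↦ P(κ ψ)` is the inner product with a form. -/
theorem per_rep (j : Γ →* G) (K : Subgroup G) (Δ : Subgroup Γ) (H : Subgroup G) (h : ∀ δ ∈ Δ, j δ ∈ H)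
    (hst : ∀ g : G, {γ : Γ | g⁻¹ * j γ * g ∈ K}.Finite)
    (S : Set G) (hS : Reps j K S) (S' : Set H) (ρ : Γ →* (U ≃ₗᵢ[ℂ] U)) (κ : G → ℂ) (hκ : IsHecke K κ)
    (φ' : H → U) (hφ' : IsForm (resHom j Δ H h) (K.subgroupOf H) S' (ρ.comp Δ.subtype) φ') :
    ∃ w : G → U, IsForm j K S ρ w ∧ ∀ ψ : G → U, IsForm j K S ρ ψ →
      ip j K S w ψ = ip (resHom j Δ H h) (K.subgroupOf H) S' φ' (fun x => hecke K κ ψ x) := by
  classical
  obtain ⟨T, hT⟩ : ∃ T, T = hφ'.fin.toFinset := ⟨_, rfl⟩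
  obtain ⟨u, hu⟩ : ∃ u : H → U, u = uu (resHom j Δ H h) (K.subgroupOf H) φ' := ⟨_, rfl⟩
  refine ⟨fun y => ∑ a ∈ T ×ˢ hκ.fin.toFinset,
      lift j K ρ ((a.1 : G) * a.2.out) ((starRingEnd ℂ (κ a.2.out)) • u a.1) y,
    form_sum _ _ fun s _ => lift_form j K S hS hst ρ _ _, fun ψ hψ => ?_⟩
  rw [ip_uu _ _ S' φ' _ hφ'.fin, ← hT, ← hu,
    ip_sum_left j K S _ _ ψ fun s _ => (lift_form j K S hS hst ρ _ _).fin, Finset.sum_product]
  refine Finset.sum_congr rfl fun s _ => ?_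
  rw [hecke_eq_sum hκ, inner_sum]
  refine Finset.sum_congr rfl fun x _ => ?_
  rw [ip_lift j K S hS hst ρ _ _ ψ hψ.eq, inner_smul_left, inner_smul_right, Complex.conj_conj]

theorem ip_smul_right (j : Γ →* G) (K : Subgroup G) (S : Set G) (φ ψ : G → U) (h : {s | s ∈ S ∧ φ s ≠ 0}.Finite) (c : ℂ) :
    ip j K S φ (fun g => c • ψ g) = c * ip j K S φ ψ := by
  rw [ip_eq_sum j K S φ _ h.toFinset (fun s hs => (h.mem_toFinset.1 hs).1)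
      (fun s hs h1 _ => h.mem_toFinset.2 ⟨hs, h1⟩),
    ip_eq_sum j K S φ ψ h.toFinset (fun s hs => (h.mem_toFinset.1 hs).1)
      (fun s hs h1 _ => h.mem_toFinset.2 ⟨hs, h1⟩), Finset.mul_sum]
  refine Finset.sum_congr rfl fun s _ => ?_
  rw [inner_smul_right, mul_div_assoc]

theorem span_main (j : Γ →* G) (K : Subgroup G) (Δ : Subgroup Γ) (H : Subgroup G) (h : ∀ δ ∈ Δ, j δ ∈ H)
    (hst : ∀ g : G, {γ : Γ | g⁻¹ * j γ * g ∈ K}.Finite)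
    (S : Set G) (hS : Reps j K S) (S' : Set H) (hS' : Reps (resHom j Δ H h) (K.subgroupOf H) S')
    (ρ : Γ →* (U ≃ₗᵢ[ℂ] U)) (φ : ι → G → U) (hφ : IsBasis j K S ρ φ)
    (φ' : H → U) (hφ' : IsForm (resHom j Δ H h) (K.subgroupOf H) S' (ρ.comp Δ.subtype) φ') (hne : φ' ≠ 0)
    (B : Finset ℕ) (κ : ℕ → G → ℂ) (t : ℕ → G) (hκ : ∀ b ∈ B, IsHecke K (κ b))
    (hgeo : ∀ a ∈ B, ∀ b ∈ B, ∀ (x y : H) (γ : Γ), κ b ((x : G)⁻¹ * j γ * y * (t a)⁻¹) ≠ 0 → γ ∈ Δ)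
    (htri : ∀ a ∈ B, ∀ b ∈ B, ∀ y : H, κ b ((y : G) * (t a)⁻¹) ≠ 0 → a ≤ b)
    (hdiag : ∀ a ∈ B, ∀ y : H, κ a ((y : G) * (t a)⁻¹) ≠ 0 → (y : G) ∈ K)
    (h1 : ∀ a ∈ B, κ a (t a)⁻¹ ≠ 0)
    (l : ι → ℕ → ℂ) (hl : ∀ i, ∀ b ∈ B, hecke K (κ b) (φ i) = l i b • φ i)
    (c : ℕ → ℂ) (hc : ∃ b ∈ B, c b ≠ 0) :
    ∃ i, ip (resHom j Δ H h) (K.subgroupOf H) S' φ' (fun x => φ i x) ≠ 0 ∧ ∑ b ∈ B, c b * l i b ≠ 0 := by
  classical
  by_contra hcon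
  push Not at hcon
  -- the largest index
  obtain ⟨a, haB, hca, hmax⟩ : ∃ a ∈ B, c a ≠ 0 ∧ ∀ b ∈ B, c b ≠ 0 → b ≤ a := by
    have hne' : (B.filter fun b => c b ≠ 0).Nonempty := by
      obtain ⟨b, hb, hb'⟩ := hc
      exact ⟨b, Finset.mem_filter.2 ⟨hb, hb'⟩⟩
    obtain ⟨a, ha, ha'⟩ := Finset.exists_max_image (B.filter fun b => c b ≠ 0) id hne'
    rw [Finset.mem_filter] at ha
    exact ⟨a, ha.1, ha.2, fun b hb hcb => ha' b (Finset.mem_filter.2 ⟨hb, hcb⟩)⟩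
  -- a point where `φ'` does not vanish
  obtain ⟨s₀, hs₀, hφs⟩ : ∃ s₀ ∈ S', φ' s₀ ≠ 0 := by
    by_contra hcon2
    push Not at hcon2
    apply hne
    funext g
    obtain ⟨s, ⟨hs, γ, k, hk, hg⟩, _⟩ := hS' g
    rw [hg, hφ'.eq γ s k hk, hcon2 s hs, map_zero]
    rfl
  obtain ⟨ψ, hψ⟩ : ∃ ψ : G → U, ψ = lift j K ρ ((s₀ : G) * (t a)⁻¹) (φ' s₀) := ⟨_, rfl⟩
  have hψf : IsForm j K S ρ ψ := by
    rw [hψ]; exact lift_form j K S hS hst ρ _ _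
  have hrep : ∀ b : ℕ, ∃ w : G → U, b ∈ B → IsForm j K S ρ w ∧ ∀ ψ : G → U, IsForm j K S ρ ψ →
      ip j K S w ψ = ip (resHom j Δ H h) (K.subgroupOf H) S' φ' (fun x => hecke K (κ b) ψ x) := by
    intro b
    by_cases hb : b ∈ B
    · obtain ⟨w, hw⟩ := per_rep j K Δ H h hst S hS S' ρ (κ b) (hκ b hb) φ' hφ'
      exact ⟨w, fun _ => hw⟩
    · exact ⟨0, fun h => absurd h hb⟩
  choose w hw using hrep
  have hsum : HasSum (fun i => ∑ b ∈ B, c b * (ip j K S (w b) (φ i) * ip j K S (φ i) ψ))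
      (∑ b ∈ B, c b * ip j K S (w b) ψ) :=
    hasSum_sum fun b hb => (hφ.parseval (w b) ψ (hw b hb).1 hψf).mul_left (c b)
  have hz : (fun i => ∑ b ∈ B, c b * (ip j K S (w b) (φ i) * ip j K S (φ i) ψ)) = fun _ => 0 := by
    funext i
    have e1 : ∀ b ∈ B, c b * (ip j K S (w b) (φ i) * ip j K S (φ i) ψ) =
        (c b * l i b) * (ip (resHom j Δ H h) (K.subgroupOf H) S' φ' (fun x => φ i x) * ip j K S (φ i) ψ) := by
      intro b hb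
      have e2 : ip j K S (w b) (φ i) = l i b * ip (resHom j Δ H h) (K.subgroupOf H) S' φ' (fun x => φ i x) := by
        rw [(hw b hb).2 _ (hφ.form i), hl i b hb]
        exact ip_smul_right _ _ _ _ _ hφ'.fin _
      rw [e2]; ring
    rw [Finset.sum_congr rfl e1, ← Finset.sum_mul]
    by_cases hP : ip (resHom j Δ H h) (K.subgroupOf H) S' φ' (fun x => φ i x) = 0
    · rw [hP]; ring
    · rw [hcon i hP, zero_mul]
  rw [hz] at hsum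
  have h0 : ∑ b ∈ B, c b * ip j K S (w b) ψ = 0 := hsum.unique hasSum_zero
  have h2 : ∑ b ∈ B, c b * ip j K S (w b) ψ = c a * (κ a (t a)⁻¹ * ((‖φ' s₀‖ ^ 2 : ℝ) : ℂ)) := by
    rw [Finset.sum_eq_single a]
    · rw [(hw a haB).2 _ hψf, hψ, term j K Δ H h hst S' hS' ρ φ' hφ' s₀ hs₀ (κ a) (hκ a haB) (t a)
        (hgeo a haB a haB) (hdiag a haB)]
    · intro b hb hba
      by_cases hcb : c b = 0
      · rw [hcb, zero_mul]
      · have hlt : b < a := lt_of_le_of_ne (hmax b hb hcb) hba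
        rw [(hw b hb).2 _ hψf, hψ, term_zero j K Δ H h hst S' ρ φ' s₀ (κ b) (hκ b hb) (t a)
          (hgeo a haB b hb), mul_zero]
        intro y
        by_contra hne2
        exact absurd (htri a haB b hb y hne2) (by omega)
    · intro h; exact absurd haB h
  rw [h2] at h0
  have h3 : ((‖φ' s₀‖ ^ 2 : ℝ) : ℂ) ≠ 0 := by
    have : 0 < ‖φ' s₀‖ := norm_pos_iff.2 hφs
    have h4 : (‖φ' s₀‖ ^ 2 : ℝ) ≠ 0 := by positivity
    exact_mod_cast h4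
  exact mul_ne_zero hca (mul_ne_zero (h1 a haB) h3) h0

end Pool.Agent.H497.GP
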