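import Pool.Agent.H497.GQ.Near
import Pool.Agent.H497.GQ.Span
import Pool.Agent.H497.GQ.Lin

set_option autoImplicit false

open scoped TensorProduct Matrix ComplexConjugate
open IsDedekindDomain NumberField

namespace Pool.Agent.H497.GP

open Pool.Agent.H497.GQ

/-- if `a g`, `a g'`, .. are integral and `a g ≡ a g'` modulo `a² N` then `g⁻¹ g' ≡ 1` modulo `N` -/
theorem close_mat {n : ℕ} {R : Type} [CommRing R] (O : Subring R)
    (hreg : ∀ m : ℕ, 0 < m → ∀ x y : R, (m : R) * x = (m : R) * y → x = y) (a N : ℕ) (ha : 0 < a)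
    (g g₁ g' : Matrix (Fin n) (Fin n) R) (h1 : g₁ * g = 1) (hg₁ : Lev O a N g₁)
    (hc : ∀ i l, ∃ z ∈ O, (a : R) * g' i l - (a : R) * g i l = ((a ^ 2 * N : ℕ) : R) * z) : Lev O 1 N (g₁ * g') := by
  classical
  choose z hz ez using hc
  choose y hy ey using hg₁
  have e1 : ∀ i l, g' i l - g i l = (a : R) * N * z i l := by
    intro i l
    apply hreg a ha
    have := ez i l
    push_cast at this
    linear_combination this
  have e2 : g₁ * g' - 1 = g₁ * (g' - g) := by rw [Matrix.mul_sub, h1]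
  intro i l
  refine ⟨∑ k, ((a : R) * g₁ i k) * z k l, ?_, ?_⟩
  · refine sum_mem fun k _ => mul_mem ?_ (hz _ _)
    have h3 : (a : R) * g₁ i k = (N : R) * y i k + (a : R) * (1 : Matrix (Fin n) (Fin n) R) i k := by
      rw [← ey i k]; ring
    rw [h3]
    refine add_mem (mul_mem (natCast_mem _ _) (hy _ _)) (mul_mem (natCast_mem _ _) ?_)
    rw [Matrix.one_apply]
    split_ifs
    · exact one_mem _
    · exact zero_mem _
  · have h4 := congrFun (congrFun e2 i) l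
    rw [Matrix.sub_apply] at h4
    rw [Nat.cast_one, one_mul, h4, Matrix.mul_apply, Finset.mul_sum]
    refine Finset.sum_congr rfl fun k _ => ?_
    rw [Matrix.sub_apply, e1]; ring

theorem adj_int {E : Type} [Field E] [NumberField E] {n : ℕ} (A : Matrix (Fin n) (Fin n) E)
    (hA : ∀ i l, IsIntegral ℤ (A i l)) (i l : Fin n) : IsIntegral ℤ (A.adjugate i l) := by
  obtain ⟨A', hA'⟩ : ∃ A' : Matrix (Fin n) (Fin n) (𝓞 E), A = (algebraMap (𝓞 E) E).mapMatrix A' :=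
    ⟨Matrix.of fun i l => ⟨A i l, hA i l⟩, by ext i l; rfl⟩
  rw [hA', ← RingHom.map_adjugate]
  exact NumberField.RingOfIntegers.isIntegral_coe _

section

variable (P : DefPair)

theorem lv_int {c N : ℕ} {g : P.G} (h : P.Lv c N g) (i l : Fin P.n) : (c : P.R) * P.mat g i l ∈ P.O := by
  obtain ⟨z, hz, e⟩ := h.1 i l
  have h3 : (c : P.R) * P.mat g i l = (N : P.R) * z + (c : P.R) * (1 : Matrix (Fin P.n) (Fin P.n) P.R) i l := by
    rw [← e]; ring
  rw [h3]
  refine add_mem (mul_mem (natCast_mem _ _) hz) (mul_mem (natCast_mem _ _) ?_)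
  rw [Matrix.one_apply]
  split_ifs
  · exact one_mem _
  · exact zero_mem _

theorem lv_inv {c N : ℕ} {g : P.G} (h : P.Lv c N g) : P.Lv c N g⁻¹ := ⟨h.2, by rw [inv_inv]; exact h.1⟩

/-- finitely many cosets with bounded denominators -/
theorem fin_lv (a N : ℕ) (ha : 0 < a) (hN : 0 < N) : {x : P.G ⧸ P.KN N | P.Lv a N x.out}.Finite := by
  classical
  obtain ⟨T, hT⟩ := oefin_P P (a ^ 2 * N) (by positivity)
  have key : ∀ x : {x : P.G ⧸ P.KN N | P.Lv a N x.out}, ∀ i l, ∃ r : T, ∃ z ∈ P.O,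
      (a : P.R) * P.mat x.1.out i l = r.1 + ((a ^ 2 * N : ℕ) : P.R) * z := by
    intro x i l
    obtain ⟨r, hr, z, hz, e⟩ := hT _ (lv_int P x.2 i l)
    exact ⟨⟨r, hr⟩, z, hz, e⟩
  choose r hr using key
  have hinj : Function.Injective r := by
    rintro ⟨x, hx⟩ ⟨y, hy⟩ hxy
    have hcl : ∀ (x y : {x : P.G ⧸ P.KN N | P.Lv a N x.out}), r x = r y →
        Lev P.O 1 N (P.mat x.1.out⁻¹ * P.mat y.1.out) := by
      intro x y hxy
      refine close_mat P.O (hreg_P P) a N ha (P.mat x.1.out) _ _ (P.mat_inv_mul _) x.2.2 fun i l => ?_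
      obtain ⟨z, hz, e⟩ := hr x i l
      obtain ⟨z', hz', e'⟩ := hr y i l
      refine ⟨z' - z, sub_mem hz' hz, ?_⟩
      rw [e, e', hxy]; ring
    have h1 := hcl _ _ hxy
    have h2 := hcl _ _ hxy.symm
    have h3 : x.out⁻¹ * y.out ∈ P.KN N := by
      refine ⟨?_, ?_⟩
      · rw [P.mat_mul]; exact h1
      · rw [mul_inv_rev, inv_inv, P.mat_mul]; exact h2
    apply Subtype.ext
    have h4 := QuotientGroup.eq.2 h3
    rw [QuotientGroup.out_eq', QuotientGroup.out_eq'] at h4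
    exact h4
  have : Finite {x : P.G ⧸ P.KN N | P.Lv a N x.out} := Finite.of_injective r hinj
  exact Set.toFinite _

theorem lev_one (a N : ℕ) {n : ℕ} {R : Type} [CommRing R] (O : Subring R) : Lev O a N (1 : Matrix (Fin n) (Fin n) R) := by
  intro i l
  exact ⟨0, zero_mem _, by rw [sub_self, mul_zero, mul_zero]⟩

/-- elements of a double coset -/
theorem lv_dc (a N : ℕ) (t g : P.G) (ht : P.Lv a N t) (h : ∃ k ∈ P.KN N, ∃ k' ∈ P.KN N, g = k * t * k') : P.Lv a N g := by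
  obtain ⟨k, hk, k', hk', rfl⟩ := h
  constructor
  · have := lev_mul P.O N 1 a (P.mat k) (P.mat k') 1 (P.mat t) hk.1 hk'.1 (lev_one _ _ _) ht.1
    rw [one_mul, mul_one] at this
    exact this
  · have := lev_mul P.O N 1 a (P.mat k'⁻¹) (P.mat k⁻¹) 1 (P.mat t⁻¹) hk'.2 hk.2 (lev_one _ _ _) ht.2
    rw [one_mul, mul_one] at this
    have e : P.mat (k * t * k')⁻¹ = P.mat k'⁻¹ * P.mat t⁻¹ * P.mat k⁻¹ := by
      rw [mul_inv_rev, mul_inv_rev, P.mat_mul, P.mat_mul]
      exact (Matrix.mul_assoc _ _ _).symm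
    rw [e]
    exact this

theorem dc_ne {G : Type} [Group G] (K : Subgroup G) (g x : G) : dc K g x ≠ 0 ↔ ∃ k ∈ K, ∃ k' ∈ K, x = k * g * k' := by
  unfold dc
  split_ifs with h
  · simp [h]
  · simp [h]

theorem hecke_dc (a N : ℕ) (ha : 0 < a) (hN : 0 < N) (t : P.G) (ht : P.Lv a N t) : IsHecke (P.KN N) (dc (P.KN N) t) := by
  refine ⟨fun g k hk k' hk' => ?_, ?_⟩
  · have : (∃ k₁ ∈ P.KN N, ∃ k₂ ∈ P.KN N, k * g * k' = k₁ * t * k₂) ↔ ∃ k₁ ∈ P.KN N, ∃ k₂ ∈ P.KN N, g = k₁ * t * k₂ := by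
      constructor
      · rintro ⟨k₁, h1, k₂, h2, e⟩
        refine ⟨k⁻¹ * k₁, mul_mem (inv_mem hk) h1, k₂ * k'⁻¹, mul_mem h2 (inv_mem hk'), ?_⟩
        have : g = k⁻¹ * (k * g * k') * k'⁻¹ := by group
        rw [this, e]; group
      · rintro ⟨k₁, h1, k₂, h2, e⟩
        refine ⟨k * k₁, mul_mem hk h1, k₂ * k', mul_mem h2 hk', ?_⟩
        rw [e]; group
    unfold dc
    by_cases h : ∃ k₁ ∈ P.KN N, ∃ k₂ ∈ P.KN N, g = k₁ * t * k₂
    · rw [if_pos h, if_pos (this.2 h)]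
    · rw [if_neg h, if_neg (fun h' => h (this.1 h'))]
  · refine (fin_lv P a N ha hN).subset fun x hx => ?_
    exact lv_dc P a N t _ ht ((dc_ne _ _ _).1 hx)

theorem int_div (a b : ℕ) (hb : 0 < b) (h : ∃ z ∈ P.O, (b : P.R) = (a : P.R) * z) (ha : 0 < a) : a ≤ b := by
  obtain ⟨z, hz, e⟩ := h
  have ha0 : (a : P.E) ≠ 0 := by exact_mod_cast ha.ne'
  have h1 : P.inc ((b : P.E) / a) = z := by
    apply hreg_P P a ha
    rw [← e, ← map_natCast P.inc a, ← map_mul, mul_div_cancel₀ _ ha0, map_natCast]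
  have h2 : IsIntegral ℤ ((b : P.E) / a) := int_P P _ (by rw [h1]; exact hz)
  have h3 : IsIntegral ℤ (algebraMap ℚ P.E ((b : ℚ) / a)) := by
    have : algebraMap ℚ P.E ((b : ℚ) / a) = (b : P.E) / a := by simp
    rw [this]; exact h2
  have h4 : IsIntegral ℤ ((b : ℚ) / a) :=
    (isIntegral_algebraMap_iff (algebraMap ℚ P.E).injective).1 h3
  obtain ⟨k, hk⟩ := IsIntegrallyClosed.isIntegral_iff.1 h4
  have hk' : (k : ℚ) = (b : ℚ) / a := by simpa using hk
  have ha' : (a : ℚ) ≠ 0 := by exact_mod_cast ha.ne'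
  have h5 : (a : ℚ) * k = b := by rw [hk']; field_simp
  have h6 : (a : ℤ) * k = b := by exact_mod_cast h5
  have h7 : (a : ℤ) ∣ b := ⟨k, h6.symm⟩
  exact Nat.le_of_dvd hb (by exact_mod_cast h7)

theorem many (hI : P.Integral) (N m : ℕ) (hN : 0 < N) (hm : N ∣ m)
    (S : Set P.G) (S' : Set P.H) (hS : Reps P.j (P.KN N) S) (hS' : Reps P.jH (P.KW (P.KN N)) S')
    (U : Type) [NormedAddCommGroup U] [InnerProductSpace ℂ U] (ρ : P.Γ →* (U ≃ₗᵢ[ℂ] U))
    (ι : Type) (φ : ι → P.G → U) (hφ : IsBasis P.j (P.KN N) S ρ φ)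
    (l : ι → P.G → ℂ) (hl : ∀ i g, P.Away N m g → hecke (P.KN N) (dc (P.KN N) g) (φ i) = l i g • φ i)
    (φ' : P.H → U) (hφ' : IsForm P.jH (P.KW (P.KN N)) S' (ρ.comp P.Δ.subtype) φ') (hne : φ' ≠ 0)
    (B : Finset ℕ) (hB : ∀ a ∈ B, P.Good N m a) :
    ∃ s : Finset ι, s.card = B.card ∧ (∀ i ∈ s, P.per (P.KN N) S' φ' (φ i) ≠ 0) ∧
      ∀ i ∈ s, ∀ i' ∈ s, i ≠ i' → ∃ g, P.Away N m g ∧ l i g ≠ l i' g := by
  classical
  have hKb : P.Bounded (P.KN N) := by
    refine ⟨1, one_pos, fun k hk i l => ?_⟩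
    have := lv_int P (c := 1) (N := N) (g := k) hk i l
    exact this
  have hst := fin_st' P (P.KN N) hKb
  have hex : ∀ a : ℕ, ∃ t : P.G, a ∈ B → RankOne P.O a P.ev (P.mat t) ∧ P.Lv a N t := by
    intro a
    by_cases ha : a ∈ B
    · obtain ⟨t, ht⟩ := exists_t P hI N m a hN hm (hB a ha)
      exact ⟨t, fun _ => ht⟩
    · exact ⟨1, fun h => absurd h ha⟩
  choose t ht using hex
  have hcop : ∀ a ∈ B, a.Coprime N := fun a ha =>
    Nat.Coprime.coprime_dvd_right (Dvd.dvd.mul_left hm 2) (hB a ha).cop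
  have haw : ∀ a ∈ B, P.Away N m (t a)⁻¹ := fun a ha =>
    ⟨a, (hB a ha).pos, Nat.Coprime.coprime_dvd_right (Dvd.intro_left _ rfl) (hB a ha).cop, lv_inv P (ht a ha).2⟩
  have heO : ∀ i, P.ev i ∈ P.O := fun i => inc_P P _ (hI.2 i)
  -- the equation in matrices
  have hmat : ∀ a b : ℕ, ∀ y : P.H, dc (P.KN N) (t b)⁻¹ ((y : P.G) * (t a)⁻¹) ≠ 0 →
      ∃ k ∈ P.KN N, ∃ k' ∈ P.KN N, t a * (y : P.G)⁻¹ = k * t b * k' := by
    intro a b y hy
    obtain ⟨k, hk, k', hk', e⟩ := (dc_ne _ _ _).1 hy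
    refine ⟨k'⁻¹, inv_mem hk', k⁻¹, inv_mem hk, ?_⟩
    have := congrArg (·⁻¹) e
    simp only [mul_inv_rev, inv_inv] at this
    rw [this]; group
  have hye : ∀ y : P.H, P.mat (y : P.G)⁻¹ *ᵥ P.ev = P.ev := fun y => P.H_inv y.2
  obtain ⟨s, hs, hs1, hs2⟩ := distinct (fun i => P.per (P.KN N) S' φ' (φ i) ≠ 0) B (fun i b => l i (t b)⁻¹) (by
    intro c hc
    refine span_main P.j (P.KN N) P.Δ P.H P.j_mem hst S hS S' hS' ρ φ hφ φ' hφ' hne B
      (fun b => dc (P.KN N) (t b)⁻¹) t (fun b hb => hecke_dc P b N (hB b hb).pos hN _ (lv_inv P (ht b hb).2)) ?_ ?_ ?_ ?_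
      (fun i b => l i (t b)⁻¹) (fun i b hb => hl i _ (haw b hb)) c hc
    · -- geometry
      intro a ha b hb x y γ hne'
      have hD : 0 < a * b := Nat.mul_pos (hB a ha).pos (hB b hb).pos
      have hsm : P.Small (a * b) (N ^ 2) := by
        intro τ
        have h1 := (hB a ha).small τ
        have h2 := (hB b hb).small τ
        have h0 : 0 ≤ ‖τ (form (P.c : P.E →+* P.E) P.A P.e P.e)‖ := norm_nonneg _
        push_cast at h1 h2 ⊢
        rcases le_total (a : ℝ) b with hab | hab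
        · refine lt_of_le_of_lt ?_ h2
          have : (a : ℝ) * b ≤ b ^ 2 := by nlinarith [(Nat.cast_nonneg b : (0 : ℝ) ≤ b)]
          nlinarith
        · refine lt_of_le_of_lt ?_ h1
          have : (a : ℝ) * b ≤ a ^ 2 := by nlinarith [(Nat.cast_nonneg a : (0 : ℝ) ≤ a)]
          nlinarith
      have hR := level' P (a * b) N hD hN (Nat.Coprime.mul_left (hcop a ha) (hcop b hb)) hI hsm
        (fun g => dc (P.KN N) (t b)⁻¹ (g * (t a)⁻¹)) (by
          intro g hg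
          obtain ⟨k, hk, k', hk', e⟩ := (dc_ne _ _ _).1 hg
          have e2 : g = k * (t b)⁻¹ * k' * t a := by rw [← e]; group
          have := lev_mul P.O N a b (P.mat k) (P.mat k') (P.mat (t a)) (P.mat (t b)⁻¹) hk.1 hk'.1 (ht a ha).2.1 (ht b hb).2.2
          rw [e2]
          exact this)
      exact stable' P (a * b) (N ^ 2) _ hR x y γ hne'
    · -- triangularity
      intro a ha b hb y hy
      obtain ⟨k, hk, k', hk', e⟩ := hmat a b y hy
      refine int_div P a b (hB b hb).pos ?_ (hB a ha).pos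
      refine tri P.O a b N P.ev heO (P.mat (t a)) (P.mat (t b)) (P.mat (y : P.G)⁻¹) (P.mat k) (P.mat k') (ht a ha).1
        (fun i l => lv_int P (ht b hb).2 i l) (fun i l => ?_) (fun i l => ?_) (hye y) ?_
      · have := lv_int P (c := 1) (N := N) (g := k) hk i l
        rwa [Nat.cast_one, one_mul] at this
      · have := lv_int P (c := 1) (N := N) (g := k') hk' i l
        rwa [Nat.cast_one, one_mul] at this
      · have := congrArg P.mat e
        rw [P.mat_mul, P.mat_mul, P.mat_mul] at this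
        exact this
    · -- uniqueness
      intro a ha y hy
      obtain ⟨k, hk, k', hk', e⟩ := hmat a a y hy
      obtain ⟨hdet0, d, hd0, hda, hd1, hd2⟩ := (hB a ha).det
      obtain ⟨B₀, hB₀, hBA⟩ : ∃ B₀ : Matrix (Fin P.n) (Fin P.n) P.R, (∀ i l, B₀ i l ∈ P.O) ∧
          B₀ * (P.A.map P.inc) = (d : P.R) • (1 : Matrix (Fin P.n) (Fin P.n) P.R) := by
        refine ⟨(P.inc ((d : P.E) * P.A.det⁻¹)) • (P.A.adjugate.map P.inc), fun i l => ?_, ?_⟩
        · rw [Matrix.smul_apply, smul_eq_mul]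
          exact mul_mem (inc_P P _ hd2) (inc_P P _ (adj_int P.A hI.1 i l))
        · rw [Matrix.smul_mul]
          have h1 : P.A.adjugate.map P.inc * P.A.map P.inc = (P.A.adjugate * P.A).map P.inc := (Matrix.map_mul).symm
          rw [h1, Matrix.adjugate_mul]
          ext i l
          rw [Matrix.smul_apply, Matrix.map_apply, Matrix.smul_apply, Matrix.smul_apply, smul_eq_mul, smul_eq_mul, ← map_mul,
            smul_eq_mul]
          have h2 : (d : P.E) * P.A.det⁻¹ * (P.A.det * (1 : Matrix (Fin P.n) (Fin P.n) P.E) i l) =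
              d * (1 : Matrix (Fin P.n) (Fin P.n) P.E) i l := by field_simp
          rw [h2, map_mul, map_natCast, Matrix.one_apply, Matrix.one_apply]
          split_ifs
          · rw [map_one]
          · rw [map_zero]
      have hu := uniq P.s P.O (hreg_P P) (s_P P) (P.A.map P.inc) B₀ (fun i l => inc_P P _ (hI.1 i l)) hB₀ d a N
        (hB a ha).pos hBA hda (hcop a ha) P.ev heO (P.mat (t a)) (P.mat (t a)⁻¹) (P.mat (y : P.G)⁻¹) (P.mat (y : P.G))
        (P.mat k) (P.mat k') (P.mat k⁻¹) (P.mat k'⁻¹) (P.mat_mul_inv _) (P.mat_inv_mul _) (P.mat_inv_mul _) (P.mat_mul_inv _)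
        (P.mat_mul_inv _) (P.mat_mul_inv _) (P.mat_inv_mul _) (P.mat_inv_mul _)
        ((show P.Va from t a).2.1) ((show P.Va from (y : P.G)⁻¹).2.1) (ht a ha).1 (ht a ha).2.1 (ht a ha).2.2
        hk.1 hk'.1 hk.2 hk'.2 (hye y) (by
          have := congrArg P.mat e
          rw [P.mat_mul, P.mat_mul, P.mat_mul] at this
          exact this)
      exact ⟨hu.2, hu.1⟩
    · intro a ha
      exact (dc_ne _ _ _).2 ⟨1, one_mem _, 1, one_mem _, by group⟩)
  refine ⟨s, hs, hs1, fun i hi i' hi' hii => ?_⟩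
  obtain ⟨b, hb, hne'⟩ := hs2 i hi i' hi' hii
  exact ⟨_, haw b hb, hne'⟩

end

end Pool.Agent.H497.GP
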