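import Pool.Agent.H497.GQ.Stm
import Pool.Agent.H497.GQ.Many
import Pool.Agent.H497.GQ.IntB

set_option autoImplicit false

open scoped TensorProduct Matrix ComplexConjugate
open IsDedekindDomain NumberField

namespace Pool.Agent.H497.GP

open Pool.Agent.H497.GQ

section

variable (P : DefPair)

theorem unit_int {E : Type} [Field E] [CharZero E] (a : ℕ) (y : ℤ) (hy : y ≠ 0) (h : IsCoprime (a : ℤ) y) : UnitAt a (y : E) := by
  have hyE : (y : E) ≠ 0 := by exact_mod_cast hy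
  refine ⟨hyE, y.natAbs, Int.natAbs_pos.2 hy, ?_, ?_, ?_⟩
  · have h1 := Int.isCoprime_iff_gcd_eq_one.1 h
    rw [Nat.Coprime, Nat.gcd_comm]
    simpa [Int.gcd] using h1
  · have : ((y.natAbs : E)) * (y : E) = ((y.natAbs * y : ℤ) : E) := by rw [Int.cast_mul, Int.cast_natCast]
    rw [this]
    exact isIntegral_algebraMap (R := ℤ) (A := E) (x := y.natAbs * y)
  · rcases Int.natAbs_eq y with h1 | h1
    · have h2 : ((y.natAbs : ℕ) : E) = (y : E) := by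
        conv_rhs => rw [h1]
        rw [Int.cast_natCast]
      rw [h2, mul_inv_cancel₀ hyE]
      exact isIntegral_one
    · have h2 : ((y.natAbs : ℕ) : E) = -(y : E) := by
        conv_rhs => rw [h1]
        rw [Int.cast_neg, neg_neg, Int.cast_natCast]
      rw [h2, neg_mul, mul_inv_cancel₀ hyE]
      exact isIntegral_one.neg

theorem q_int (A₀ : Matrix (Fin P.n) (Fin P.n) ℤ) (hA : P.A = A₀.map (Int.cast : ℤ → P.E)) (x y : Fin P.n → ℤ) :
    P.q (fun i => (x i : P.E)) (fun i => (y i : P.E)) = ((x ⬝ᵥ A₀ *ᵥ y : ℤ) : P.E) := by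
  have h := form_map (RingHom.id ℤ) (P.c : P.E →+* P.E) (Int.castRingHom P.E) (fun z => by simp) A₀ x y
  unfold DefPair.q
  rw [hA]
  exact h

theorem good_int (A₀ : Matrix (Fin P.n) (Fin P.n) ℤ) (e₀ : Fin P.n → ℤ) (hn : 3 ≤ P.n)
    (hA : P.A = A₀.map (Int.cast : ℤ → P.E)) (he : P.e = fun i => (e₀ i : P.E)) (N m a : ℕ) (ha : 0 < a)
    (hsize : 4 * a ^ 2 * (e₀ ⬝ᵥ A₀ *ᵥ e₀).natAbs < N ^ 2)
    (hcop : a.Coprime (2 * m * A₀.det.natAbs * (e₀ ⬝ᵥ A₀ *ᵥ e₀).natAbs)) : P.Good N m a := by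
  have hinj : Function.Injective (Int.cast : ℤ → P.E) := Int.cast_injective
  have hsym : A₀ᵀ = A₀ := by
    ext i l
    rw [Matrix.transpose_apply]
    apply hinj
    have h1 := herm_P P i l
    rw [hA, Matrix.map_apply, Matrix.map_apply, map_intCast] at h1
    exact h1
  have hqee : P.q P.e P.e = ((e₀ ⬝ᵥ A₀ *ᵥ e₀ : ℤ) : P.E) := by
    rw [he]; exact q_int P A₀ hA e₀ e₀
  have hne : P.q P.e P.e ≠ 0 := form_ne P.c P.A P.cc P.definite P.e P.ne
  have hne' : e₀ ⬝ᵥ A₀ *ᵥ e₀ ≠ 0 := by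
    intro h0; apply hne; rw [hqee, h0, Int.cast_zero]
  have hdet : P.A.det = ((A₀.det : ℤ) : P.E) := by
    rw [hA]
    exact (Int.cast_det A₀).symm
  have hc1 : a.Coprime 2 := Nat.Coprime.coprime_dvd_right ⟨m * A₀.det.natAbs * (e₀ ⬝ᵥ A₀ *ᵥ e₀).natAbs, by ring⟩ hcop
  have hc2 : a.Coprime (2 * m) := Nat.Coprime.coprime_dvd_right ⟨A₀.det.natAbs * (e₀ ⬝ᵥ A₀ *ᵥ e₀).natAbs, by ring⟩ hcop
  have hc3 : IsCoprime (a : ℤ) A₀.det := by
    rw [Int.isCoprime_iff_gcd_eq_one]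
    have : a.Coprime A₀.det.natAbs := Nat.Coprime.coprime_dvd_right ⟨2 * m * (e₀ ⬝ᵥ A₀ *ᵥ e₀).natAbs, by ring⟩ hcop
    simpa [Int.gcd] using this
  have hc4 : IsCoprime (a : ℤ) (e₀ ⬝ᵥ A₀ *ᵥ e₀) := by
    rw [Int.isCoprime_iff_gcd_eq_one]
    have : a.Coprime (e₀ ⬝ᵥ A₀ *ᵥ e₀).natAbs := Nat.Coprime.coprime_dvd_right ⟨2 * m * A₀.det.natAbs, by ring⟩ hcop
    simpa [Int.gcd] using this
  have hdet0 : A₀.det ≠ 0 := by
    intro h0
    -- the form is definite, so nondegenerate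
    obtain ⟨v, hv, hv0⟩ := Matrix.exists_mulVec_eq_zero_iff.2 (show P.A.det = 0 by rw [hdet, h0, Int.cast_zero])
    have h1 := form_ne P.c P.A P.cc P.definite v hv
    apply h1
    unfold form
    rw [hv0, dotProduct_zero]
  have ha0 : (a : P.E) ≠ 0 := by exact_mod_cast ha.ne'
  refine ⟨ha, hc2, ?_, ?_, ?_, ?_⟩
  · intro τ
    have h1 : form (P.c : P.E →+* P.E) P.A P.e P.e = ((e₀ ⬝ᵥ A₀ *ᵥ e₀ : ℤ) : P.E) := hqee
    rw [h1, map_intCast]
    have h2 : ‖((e₀ ⬝ᵥ A₀ *ᵥ e₀ : ℤ) : ℂ)‖ = ((e₀ ⬝ᵥ A₀ *ᵥ e₀).natAbs : ℝ) := by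
      rw [Complex.norm_intCast, Nat.cast_natAbs, Int.cast_abs]
    rw [h2]
    exact_mod_cast hsize
  · rw [hdet]; exact unit_int a _ hdet0 hc3
  · rw [hqee]; exact unit_int a _ hne' hc4
  · rcases Nat.lt_or_ge 1 a with h1 | h1
    · obtain ⟨x, ε, hx, hxε, hxe⟩ := exists_norm P.n hn A₀ hsym e₀ a ha hc1 hc3 hc4
      have hε0 : ε ≠ 0 := by
        rintro rfl
        have := Int.isCoprime_iff_gcd_eq_one.1 hxε
        simp at this
        omega
      have hxe0 : x ⬝ᵥ A₀ *ᵥ e₀ ≠ 0 := by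
        intro h0
        rw [h0] at hxe
        have := Int.isCoprime_iff_gcd_eq_one.1 hxe
        simp at this
        omega
      refine ⟨fun i => (x i : P.E), fun i => isIntegral_algebraMap (R := ℤ) (A := P.E) (x := x i), ?_, ?_⟩
      · rw [q_int P A₀ hA x x, hx]
        have : (((a : ℤ) * ε : ℤ) : P.E) / a = (ε : P.E) := by
          push_cast
          field_simp
        rw [this]
        exact unit_int a _ hε0 hxε
      · rw [he, q_int P A₀ hA x e₀]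
        exact unit_int a _ hxe0 hxe
    · have ha1 : a = 1 := by omega
      subst ha1
      refine ⟨P.e, fun i => ?_, ?_, ?_⟩
      · rw [he]; exact isIntegral_algebraMap (R := ℤ) (A := P.E) (x := e₀ i)
      · rw [Nat.cast_one, div_one, hqee]; exact unit_int 1 _ hne' hc4
      · rw [hqee]; exact unit_int 1 _ hne' hc4

theorem int_P' (A₀ : Matrix (Fin P.n) (Fin P.n) ℤ) (e₀ : Fin P.n → ℤ)
    (hA : P.A = A₀.map (Int.cast : ℤ → P.E)) (he : P.e = fun i => (e₀ i : P.E)) : P.Integral := by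
  refine ⟨fun i l => ?_, fun i => ?_⟩
  · rw [hA]; exact isIntegral_algebraMap (R := ℤ) (A := P.E) (x := A₀ i l)
  · rw [he]; exact isIntegral_algebraMap (R := ℤ) (A := P.E) (x := e₀ i)

theorem many_good (hI : P.Integral) (N m : ℕ) (hN : 0 < N) (hm : N ∣ m) (B : Finset ℕ) (hB : ∀ a ∈ B, P.Good N m a) :
    P.Many N m B.card := by
  intro S S' hS hS' U _ _ ρ ι φ hφ l hl φ' hφ' hne
  exact many P hI N m hN hm S S' hS hS' U ρ ι φ hφ l hl φ' hφ' hne B hB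

theorem many_int (A₀ : Matrix (Fin P.n) (Fin P.n) ℤ) (e₀ : Fin P.n → ℤ) (hn : 3 ≤ P.n)
    (hA : P.A = A₀.map (Int.cast : ℤ → P.E)) (he : P.e = fun i => (e₀ i : P.E)) (N m Y : ℕ) (hN : 0 < N) (hm : N ∣ m)
    (hY : 4 * Y ^ 2 * (e₀ ⬝ᵥ A₀ *ᵥ e₀).natAbs < N ^ 2) :
    P.Many N m ((Finset.Icc 1 Y).filter fun a =>
      a.Coprime (2 * m * A₀.det.natAbs * (e₀ ⬝ᵥ A₀ *ᵥ e₀).natAbs)).card := by
  refine many_good P (int_P' P A₀ e₀ hA he) N m hN hm _ fun a ha => ?_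
  rw [Finset.mem_filter, Finset.mem_Icc] at ha
  refine good_int P A₀ e₀ hn hA he N m a ha.1.1 (lt_of_le_of_lt ?_ hY) ha.2
  have : a ^ 2 ≤ Y ^ 2 := Nat.pow_le_pow_left ha.1.2 2
  nlinarith [Nat.zero_le (e₀ ⬝ᵥ A₀ *ᵥ e₀).natAbs]

/-- integers congruent to one -/
theorem card_one (q Y : ℕ) (hq : 0 < q) (p : ℕ → Prop) [DecidablePred p] (hp : ∀ k, 1 + q * k ≤ Y → p (1 + q * k)) :
    Y ≤ q * ((Finset.Icc 1 Y).filter p).card := by
  rcases Nat.eq_zero_or_pos Y with rfl | hY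
  · exact Nat.zero_le _
  have h1 : (Finset.range ((Y - 1) / q + 1)).card ≤ ((Finset.Icc 1 Y).filter p).card := by
    refine Finset.card_le_card_of_injOn (fun k => 1 + q * k) ?_ ?_
    · intro k hk
      rw [Finset.mem_coe, Finset.mem_range] at hk
      have h2 : k ≤ (Y - 1) / q := Nat.lt_succ_iff.1 hk
      have h3 : q * k ≤ Y - 1 := (Nat.mul_le_mul_left q h2).trans (Nat.mul_div_le _ _)
      have h4 : 1 + q * k ≤ Y := (Nat.add_le_add_left h3 1).trans (Nat.add_sub_cancel' hY).le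
      rw [Finset.mem_coe, Finset.mem_filter, Finset.mem_Icc]
      exact ⟨⟨Nat.le_add_right 1 _, h4⟩, hp k h4⟩
    · intro k _ k' _ h
      have h' : 1 + q * k = 1 + q * k' := h
      have : q * k = q * k' := by omega
      exact Nat.eq_of_mul_eq_mul_left hq this
  rw [Finset.card_range] at h1
  have h5 : Y - 1 < q * ((Y - 1) / q + 1) := by
    have := Nat.lt_mul_div_succ (Y - 1) hq
    exact this
  calc Y ≤ q * ((Y - 1) / q + 1) := by
        generalize q * ((Y - 1) / q + 1) = Z at h5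
        omega
    _ ≤ _ := Nat.mul_le_mul_left q h1

theorem many_prime (A₀ : Matrix (Fin P.n) (Fin P.n) ℤ) (e₀ : Fin P.n → ℤ) (hn : 3 ≤ P.n)
    (hA : P.A = A₀.map (Int.cast : ℤ → P.E)) (he : P.e = fun i => (e₀ i : P.E)) (N m₀ : ℕ) (hN : N.Prime) (hm : 0 < m₀) :
    ∃ k : ℕ, N ≤ 8 * m₀ * A₀.det.natAbs * (e₀ ⬝ᵥ A₀ *ᵥ e₀).natAbs ^ 2 * (k + 1) ∧ P.Many N (m₀ * N) k := by
  obtain ⟨v, hv⟩ : ∃ v, v = (e₀ ⬝ᵥ A₀ *ᵥ e₀).natAbs := ⟨_, rfl⟩
  obtain ⟨D, hD⟩ : ∃ D, D = A₀.det.natAbs := ⟨_, rfl⟩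
  have hv0 : 0 < v := by
    rw [hv, Int.natAbs_pos]
    intro h0
    have hne : P.q P.e P.e ≠ 0 := form_ne P.c P.A P.cc P.definite P.e P.ne
    apply hne
    rw [he, q_int P A₀ hA e₀ e₀, h0, Int.cast_zero]
  have hD0 : 0 < D := by
    rw [hD, Int.natAbs_pos]
    intro h0
    have hdet : P.A.det = ((A₀.det : ℤ) : P.E) := by
      rw [hA]; exact (Int.cast_det A₀).symm
    obtain ⟨w, hw, hw0⟩ := Matrix.exists_mulVec_eq_zero_iff.2 (show P.A.det = 0 by rw [hdet, h0, Int.cast_zero])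
    have h1 := form_ne P.c P.A P.cc P.definite w hw
    apply h1
    unfold form
    rw [hw0, dotProduct_zero]
  obtain ⟨Y, hY⟩ : ∃ Y, Y = (N - 1) / (2 * v) := ⟨_, rfl⟩
  have hN1 : 1 < N := hN.one_lt
  have hYN : 2 * v * Y ≤ N - 1 := by rw [hY]; exact Nat.mul_div_le _ _
  have hYN' : 2 * v * Y < N := by omega
  have hsize : 4 * Y ^ 2 * v < N ^ 2 := by
    have h1 : (2 * v * Y) ^ 2 < N ^ 2 := Nat.pow_lt_pow_left hYN' (by norm_num)
    have h2 : 4 * Y ^ 2 * v ≤ (2 * v * Y) ^ 2 := by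
      have : v ≤ v ^ 2 := Nat.le_self_pow (by norm_num) v
      nlinarith [Nat.zero_le (Y ^ 2)]
    exact lt_of_le_of_lt h2 h1
  have hmany := many_int P A₀ e₀ hn hA he N (m₀ * N) Y hN.pos (Dvd.intro_left _ rfl) (by rw [← hv]; exact hsize)
  refine ⟨_, ?_, hmany⟩
  rw [← hv, ← hD]
  have hcard := card_one (2 * m₀ * D * v) Y (by positivity) (fun a => a.Coprime (2 * (m₀ * N) * D * v)) (by
    intro k hk
    have h1 : (1 + 2 * m₀ * D * v * k).Coprime (2 * m₀ * D * v) := by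
      rw [Nat.coprime_add_mul_left_left]
      exact Nat.coprime_one_left _
    have h2 : (1 + 2 * m₀ * D * v * k).Coprime N := by
      rw [Nat.coprime_comm, hN.coprime_iff_not_dvd]
      intro h
      have h3 := Nat.le_of_dvd (by omega) h
      have h4 : Y ≤ 2 * v * Y := by nlinarith
      omega
    have : 2 * (m₀ * N) * D * v = (2 * m₀ * D * v) * N := by ring
    rw [this]
    exact Nat.Coprime.mul_right h1 h2)
  obtain ⟨c, hc⟩ : ∃ c, c = ((Finset.Icc 1 Y).filter fun a => a.Coprime (2 * (m₀ * N) * D * v)).card := ⟨_, rfl⟩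
  rw [← hc] at hcard ⊢
  have h6 : N - 1 < 2 * v * (Y + 1) := by
    rw [hY]; exact Nat.lt_mul_div_succ (N - 1) (by positivity)
  have h7 : N ≤ 2 * v * (Y + 1) := by omega
  have h8 : 2 * v * (Y + 1) ≤ 2 * v * (2 * m₀ * D * v * c + 1) := Nat.mul_le_mul_left _ (by omega)
  have h9 : 2 * v * (2 * m₀ * D * v * c + 1) ≤ 8 * m₀ * D * v ^ 2 * (c + 1) := by
    have e1 : 2 * v * (2 * m₀ * D * v * c + 1) = 4 * (m₀ * D * v ^ 2) * c + 2 * v := by ring
    have e2 : 8 * m₀ * D * v ^ 2 * (c + 1) = 8 * (m₀ * D * v ^ 2) * c + 8 * (m₀ * D * v ^ 2) := by ring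
    have e3 : v ≤ m₀ * D * v ^ 2 := by
      have h10 : v ≤ v ^ 2 := Nat.le_self_pow (by norm_num) v
      have h11 : 1 ≤ m₀ * D := Nat.mul_pos hm hD0
      nlinarith
    rw [e1, e2]
    nlinarith [Nat.zero_le ((m₀ * D * v ^ 2) * c)]
  omega

end

end Pool.Agent.H497.GP
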