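import Pool.Agent.H497.GP.Show

set_option autoImplicit false

open scoped TensorProduct Matrix ComplexConjugate
open IsDedekindDomain NumberField

namespace Pool.Agent.H497.GP

variable {F E : Type} [Field F] [NumberField F] [Field E] [NumberField E] [Algebra F E]

/- END OF DEFS -/


namespace OEFin

variable {F : Type} [Field F] [NumberField F]

/-- approximation at one place -/
theorem approx1 (v : HeightOneSpectrum (𝓞 F)) (b : v.adicCompletion F)
    (hb : b ∈ v.adicCompletionIntegers F) (m : ℕ) (hm : 0 < m) :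
    ∃ y : 𝓞 F, Valued.v (b - ((algebraMap (𝓞 F) F y : F) : v.adicCompletion F)) ≤
      v.valuation F (m : F) := by
  have hm0 : (m : F) ≠ 0 := by exact_mod_cast hm.ne'
  have hmv : v.valuation F (m : F) ≠ 0 := (Valuation.ne_zero_iff _).2 hm0
  have hm1 : v.valuation F (m : F) ≤ 1 := by
    have h := v.valuation_le_one (K := F) (m : 𝓞 F)
    simpa using h
  set M : v.adicCompletion F := ((m : F) : v.adicCompletion F) with hM
  have hMv : Valued.v M = v.valuation F (m : F) :=
    HeightOneSpectrum.valuedAdicCompletion_eq_valuation' v (m : F)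
  have hM0 : M ≠ 0 := by
    intro h
    rw [h, map_zero] at hMv
    exact hmv hMv.symm
  -- the open set
  have hopen : IsOpen {x : v.adicCompletion F | M⁻¹ * (x - b) ∈ v.adicCompletionIntegers F} := by
    have h1 : IsOpen (v.adicCompletionIntegers F : Set (v.adicCompletion F)) :=
      Valued.isOpen_valuationSubring _
    exact h1.preimage (continuous_const.mul (continuous_id.sub continuous_const))
  have hne : ({x : v.adicCompletion F | M⁻¹ * (x - b) ∈ v.adicCompletionIntegers F}).Nonempty := by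
    refine ⟨b, ?_⟩
    change M⁻¹ * (b - b) ∈ v.adicCompletionIntegers F
    rw [sub_self, mul_zero]
    exact zero_mem _
  obtain ⟨k, hk⟩ := (HeightOneSpectrum.denseRange_algebraMap (K := F) v).exists_mem_open hopen hne
  have hk2 : ((algebraMap F (v.adicCompletion F) k)) = (k : v.adicCompletion F) := rfl
  have hk3 : Valued.v ((k : v.adicCompletion F) - b) ≤ v.valuation F (m : F) := by
    have h2 : Valued.v (M⁻¹ * ((k : v.adicCompletion F) - b)) ≤ 1 := by
      rw [← hk2]
      exact hk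
    have h3 : (k : v.adicCompletion F) - b = M * (M⁻¹ * ((k : v.adicCompletion F) - b)) := by
      rw [← mul_assoc, mul_inv_cancel₀ hM0, one_mul]
    rw [h3, map_mul, hMv]
    exact mul_le_of_le_one_right' h2
  have hk4 : v.valuation F k ≤ 1 := by
    rw [← HeightOneSpectrum.valuedAdicCompletion_eq_valuation' v k]
    have h4 : (k : v.adicCompletion F) = ((k : v.adicCompletion F) - b) + b := by ring
    rw [h4]
    refine (Valuation.map_add _ _ _).trans (max_le (hk3.trans hm1) ?_)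
    exact hb
  obtain ⟨y, hy⟩ := v.exists_valuation_sub_lt_of_integer (R := 𝓞 F) hk4 (Units.mk0 _ hmv)
  refine ⟨y, ?_⟩
  have h5 : b - ((algebraMap (𝓞 F) F y : F) : v.adicCompletion F) =
      -((k : v.adicCompletion F) - b) - (((algebraMap (𝓞 F) F y - k : F)) : v.adicCompletion F) := by
    have h6 : (((algebraMap (𝓞 F) F y - k : F)) : v.adicCompletion F) =
        ((algebraMap (𝓞 F) F y : F) : v.adicCompletion F) - (k : v.adicCompletion F) := by
      exact map_sub (algebraMap F (v.adicCompletion F)) _ _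
    rw [h6]
    ring
  rw [h5]
  refine (Valuation.map_sub _ _ _).trans (max_le ?_ ?_)
  · rw [Valuation.map_neg]
    exact hk3
  · rw [HeightOneSpectrum.valuedAdicCompletion_eq_valuation']
    exact hy.le

/-- approximation at all places -/
theorem approx (b : FiniteAdeleRing (𝓞 F) F)
    (hb : ∀ v : HeightOneSpectrum (𝓞 F), b v ∈ v.adicCompletionIntegers F) (m : ℕ) (hm : 0 < m) :
    ∃ y : 𝓞 F, ∀ v : HeightOneSpectrum (𝓞 F),
      Valued.v (b v - ((algebraMap (𝓞 F) F y : F) : v.adicCompletion F)) ≤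
        v.valuation F (m : F) := by
  classical
  have hm0 : (m : F) ≠ 0 := by exact_mod_cast hm.ne'
  have hm0' : (m : 𝓞 F) ≠ 0 := by exact_mod_cast hm.ne'
  choose y hy using fun v : HeightOneSpectrum (𝓞 F) => approx1 v (b v) (hb v) m hm
  have hfin := HeightOneSpectrum.Support.finite (𝓞 F) ((m : F)⁻¹)
  obtain ⟨z, hz⟩ := IsDedekindDomain.exists_forall_sub_mem_ideal (s := hfin.toFinset)
    (fun v : HeightOneSpectrum (𝓞 F) => v.asIdeal)
    (fun v => multiplicity v.asIdeal (Ideal.span {(m : 𝓞 F)}))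
    (fun v _ => v.prime)
    (fun v _ w _ hvw h => hvw (HeightOneSpectrum.ext h)) (fun v => y v.1)
  refine ⟨z, fun v => ?_⟩
  by_cases hv : v ∈ hfin.toFinset
  · have h1 := hz v hv
    rw [← HeightOneSpectrum.intValuation_le_pow_iff_mem,
      ← HeightOneSpectrum.intValuation_eq_exp_neg_multiplicity v hm0'] at h1
    have h2 : v.intValuation (m : 𝓞 F) = v.valuation F (m : F) := by
      rw [← HeightOneSpectrum.valuation_of_algebraMap (K := F)]
      simp
    have h3 : b v - ((algebraMap (𝓞 F) F z : F) : v.adicCompletion F) =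
        (b v - ((algebraMap (𝓞 F) F (y v) : F) : v.adicCompletion F)) -
          ((algebraMap (𝓞 F) F (z - y v) : F) : v.adicCompletion F) := by
      have h6 : ((algebraMap (𝓞 F) F (z - y v) : F) : v.adicCompletion F) =
          ((algebraMap (𝓞 F) F z : F) : v.adicCompletion F) -
            ((algebraMap (𝓞 F) F (y v) : F) : v.adicCompletion F) := by
        rw [map_sub]
        exact map_sub (algebraMap F (v.adicCompletion F)) _ _
      rw [h6]
      ring
    rw [h3]
    refine (Valuation.map_sub _ _ _).trans (max_le (hy v) ?_)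
    rw [HeightOneSpectrum.valuedAdicCompletion_eq_valuation',
      HeightOneSpectrum.valuation_of_algebraMap, ← h2]
    exact h1
  · have h1 : 1 ≤ v.valuation F (m : F) := by
      rw [Set.Finite.mem_toFinset] at hv
      have h2 : ¬ (1 < v.valuation F ((m : F)⁻¹)) := hv
      rw [map_inv₀, not_lt, inv_le_one₀ (zero_lt_iff.2 ((Valuation.ne_zero_iff _).2 hm0))] at h2
      exact h2
    refine le_trans ?_ h1
    refine (Valuation.map_sub _ _ _).trans (max_le (hb v) ?_)
    rw [HeightOneSpectrum.valuedAdicCompletion_eq_valuation']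
    exact v.valuation_le_one z

/-- an integral adele is an integer plus `m` times an integral adele -/
theorem adele (b : FiniteAdeleRing (𝓞 F) F)
    (hb : ∀ v : HeightOneSpectrum (𝓞 F), b v ∈ v.adicCompletionIntegers F) (m : ℕ) (hm : 0 < m) :
    ∃ (y : 𝓞 F) (b' : FiniteAdeleRing (𝓞 F) F),
      (∀ v : HeightOneSpectrum (𝓞 F), b' v ∈ v.adicCompletionIntegers F) ∧
      b = algebraMap F (FiniteAdeleRing (𝓞 F) F) (y : F) + (m : FiniteAdeleRing (𝓞 F) F) * b' := by
  obtain ⟨y, hy⟩ := approx b hb m hm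
  have hm0 : (m : F) ≠ 0 := by exact_mod_cast hm.ne'
  refine ⟨y, algebraMap F (FiniteAdeleRing (𝓞 F) F) ((m : F)⁻¹) *
    (b - algebraMap F (FiniteAdeleRing (𝓞 F) F) (y : F)), fun v => ?_, ?_⟩
  · rw [HeightOneSpectrum.mem_adicCompletionIntegers]
    change Valued.v ((((m : F)⁻¹ : F) : v.adicCompletion F) *
      (b v - ((y : F) : v.adicCompletion F))) ≤ 1
    rw [map_mul, HeightOneSpectrum.valuedAdicCompletion_eq_valuation', map_inv₀]
    have h1 : 0 < v.valuation F (m : F) := zero_lt_iff.2 ((Valuation.ne_zero_iff _).2 hm0)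
    rw [inv_mul_le_iff₀ h1, mul_one]
    exact hy v
  · have h2 : (m : FiniteAdeleRing (𝓞 F) F) = algebraMap F (FiniteAdeleRing (𝓞 F) F) (m : F) := by
      rw [map_natCast]
    rw [h2, ← mul_assoc, ← map_mul, mul_inv_cancel₀ hm0, map_one, one_mul]
    ring

end OEFin


namespace OEFin

theorem reps (m : ℕ) (hm : 0 < m) : ∃ T : Finset (𝓞 E), ∀ x : 𝓞 E, ∃ t ∈ T, ∃ x' : 𝓞 E,
    x = t + (m : 𝓞 E) * x' := by
  classical
  have hm0 : (m : 𝓞 E) ≠ 0 := by exact_mod_cast hm.ne'
  have hI : Ideal.span {(m : 𝓞 E)} ≠ ⊥ := by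
    rw [Ne, Ideal.span_singleton_eq_bot]
    exact hm0
  have hfin : Finite (𝓞 E ⧸ Ideal.span {(m : 𝓞 E)}) := Ideal.finiteQuotientOfFreeOfNeBot _ hI
  have := Fintype.ofFinite (𝓞 E ⧸ Ideal.span {(m : 𝓞 E)})
  refine ⟨Finset.univ.image (fun q : 𝓞 E ⧸ Ideal.span {(m : 𝓞 E)} => Quotient.out q), fun x => ?_⟩
  refine ⟨Quotient.out (Ideal.Quotient.mk (Ideal.span {(m : 𝓞 E)}) x),
    Finset.mem_image_of_mem _ (Finset.mem_univ _), ?_⟩
  have h1 : Ideal.Quotient.mk (Ideal.span {(m : 𝓞 E)})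
      (Quotient.out (Ideal.Quotient.mk (Ideal.span {(m : 𝓞 E)}) x)) =
        Ideal.Quotient.mk (Ideal.span {(m : 𝓞 E)}) x := by
    exact Quotient.out_eq _
  rw [eq_comm, Ideal.Quotient.eq, Ideal.mem_span_singleton'] at h1
  obtain ⟨a, ha⟩ := h1
  refine ⟨a, ?_⟩
  rw [mul_comm, ha]
  ring

omit [NumberField E] in
theorem inc_add (x y : 𝓞 E) :
    inc F E ((x + y : 𝓞 E) : E) = inc F E (x : E) + inc F E (y : E) :=
  map_add ((inc F E).comp (algebraMap (𝓞 E) E)) x y

omit [NumberField E] in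
theorem inc_mul (x y : 𝓞 E) :
    inc F E ((x * y : 𝓞 E) : E) = inc F E (x : E) * inc F E (y : E) :=
  map_mul ((inc F E).comp (algebraMap (𝓞 E) E)) x y

omit [NumberField E] in
theorem inc_neg (x : 𝓞 E) :
    inc F E ((-x : 𝓞 E) : E) = - inc F E (x : E) :=
  map_neg ((inc F E).comp (algebraMap (𝓞 E) E)) x

omit [NumberField E] in
theorem inc_nat (m : ℕ) :
    inc F E (((m : 𝓞 E)) : E) = (m : AE F E) :=
  map_natCast ((inc F E).comp (algebraMap (𝓞 E) E)) m

omit [NumberField E] in
theorem inc_mem (x : 𝓞 E) : inc F E (x : E) ∈ OE F E := by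
  refine Subring.subset_closure (Or.inl ⟨x, ?_⟩)
  rfl

omit [NumberField E] in
theorem tmul_mem (a : AF F)
    (ha : ∀ v : HeightOneSpectrum (𝓞 F), a v ∈ v.adicCompletionIntegers F) :
    (1 : E) ⊗ₜ[F] a ∈ OE F E :=
  Subring.subset_closure (Or.inr ⟨a, ha, rfl⟩)

omit [NumberField E] in
theorem inc_of_F (y : 𝓞 F) : ∃ x : 𝓞 E,
    (1 : E) ⊗ₜ[F] (algebraMap F (AF F) (y : F)) = inc F E (x : E) := by
  have h1 : IsIntegral ℤ (algebraMap F E (y : F)) :=
    (NumberField.RingOfIntegers.isIntegral_coe y).algebraMap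
  refine ⟨⟨algebraMap F E (y : F), h1⟩, ?_⟩
  have h2 : (1 : E) ⊗ₜ[F] (algebraMap F (AF F) (y : F)) =
      (algebraMap F E (y : F)) ⊗ₜ[F] (1 : AF F) := by
    rw [Algebra.algebraMap_eq_smul_one, Algebra.algebraMap_eq_smul_one, TensorProduct.tmul_smul,
      TensorProduct.smul_tmul']
  rw [h2]
  rfl

theorem decomp (m : ℕ) (hm : 0 < m) (z : AE F E) (hz : z ∈ OE F E) :
    ∃ x : 𝓞 E, ∃ z' ∈ OE F E, z = inc F E (x : E) + (m : AE F E) * z' := by
  refine Subring.closure_induction (p := fun z _ => ∃ x : 𝓞 E, ∃ z' ∈ OE F E,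
    z = inc F E (x : E) + (m : AE F E) * z') ?_ ?_ ?_ ?_ ?_ ?_ hz
  · rintro z (⟨x, rfl⟩ | ⟨a, ha, rfl⟩)
    · exact ⟨x, 0, zero_mem _, by rw [mul_zero, add_zero]; rfl⟩
    · obtain ⟨y, b', hb', h⟩ := adele a ha m hm
      obtain ⟨x, hx⟩ := inc_of_F (E := E) y
      refine ⟨x, (1 : E) ⊗ₜ[F] b', tmul_mem b' hb', ?_⟩
      rw [h, TensorProduct.tmul_add, hx]
      congr 1
      have h3 : (m : AE F E) = (1 : E) ⊗ₜ[F] (m : AF F) := by
        have h4 := map_natCast (Algebra.TensorProduct.includeRight : AF F →ₐ[F] AE F E) m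
        rw [← h4]
        rfl
      rw [h3, Algebra.TensorProduct.tmul_mul_tmul, one_mul]
  · exact ⟨0, 0, zero_mem _, by simp⟩
  · exact ⟨1, 0, zero_mem _, by simp⟩
  · rintro z w _ _ ⟨x, z', hz', h⟩ ⟨y, w', hw', h'⟩
    refine ⟨x + y, z' + w', add_mem hz' hw', ?_⟩
    rw [h, h', inc_add]
    ring
  · rintro z _ ⟨x, z', hz', h⟩
    refine ⟨-x, -z', neg_mem hz', ?_⟩
    rw [h, inc_neg]
    ring
  · rintro z w _ _ ⟨x, z', hz', h⟩ ⟨y, w', hw', h'⟩
    refine ⟨x * y, inc F E (x : E) * w' + z' * inc F E (y : E) + (m : AE F E) * (z' * w'), ?_, ?_⟩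
    · have hm' : (m : AE F E) ∈ OE F E := natCast_mem _ _
      exact add_mem (add_mem (mul_mem (inc_mem x) hw') (mul_mem hz' (inc_mem y)))
        (mul_mem hm' (mul_mem hz' hw'))
    · rw [h, h', inc_mul]
      ring

end OEFin

/-- Every integral adele of `E` is congruent modulo `m` to one of finitely many. (1) For an integral adele `b` of `F` (all
components in `O_v`) there is `y ∈ 𝓞 F` with `b_v - y ∈ m O_v` for all `v`: for `v ∣ m` approximate `b_v` by `y_v ∈ 𝓞 F`
(density; e.g. `HeightOneSpectrum.exists_adicValued_mul_sub_le` / density of `𝓞 F` in `adicCompletionIntegers`), then the Chinese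
remainder theorem (`IsDedekindDomain.exists_forall_sub_mem_ideal` or `Ideal.quotientInfRingEquiv..`) modulo the powers `v^(v(m))`; for
`v ∤ m` nothing to do. So `(b - y)/m` is an integral adele. (2) The set of `z` which are `≡ inc x mod m OE` for some integral `x ∈ E`
is a subring containing the generators of `OE`. (3) `𝓞 E / m` is finite (`Ideal.finiteQuotientOfFreeOfNeBot` or similar; or a
`ℤ`-basis of `𝓞 E`). -/
theorem OE_fin (m : ℕ) (hm : 0 < m) : ∃ T : Finset (AE F E), ∀ z ∈ OE F E, ∃ x ∈ T, ∃ z' ∈ OE F E,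
    z = x + (m : AE F E) * z' := by
  classical
  obtain ⟨T, hT⟩ := OEFin.reps (E := E) m hm
  refine ⟨T.image (fun x : 𝓞 E => inc F E (x : E)), fun z hz => ?_⟩
  obtain ⟨x, z', hz', h⟩ := OEFin.decomp m hm z hz
  obtain ⟨t, ht, x', hx⟩ := hT x
  refine ⟨inc F E (t : E), Finset.mem_image_of_mem _ ht, inc F E (x' : E) + z',
    add_mem (OEFin.inc_mem x') hz', ?_⟩
  rw [h, hx, OEFin.inc_add, OEFin.inc_mul, OEFin.inc_nat]
  ring

end Pool.Agent.H497.GP
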