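import Pool.Agent.H497.GQ.Loc0

set_option autoImplicit false

open scoped Matrix

namespace Pool.Agent.H497.GQ

variable {n : ℕ} {R : Type} [CommRing R]

/-- the row vector `s(X)ᵗ A` -/
def row (s : R →+* R) (A : Matrix (Fin n) (Fin n) R) (X : Fin n → R) (l : Fin n) : R := ∑ i, s (X i) * A i l

/-- `S = 1 - α X (s(X)ᵗ A)` -/
def refl (s : R →+* R) (A : Matrix (Fin n) (Fin n) R) (X : Fin n → R) (α : R) : Matrix (Fin n) (Fin n) R :=
  1 - α • Matrix.vecMulVec X (row s A X)

/- END OF DEFS -/

/-- the form as a product of the row vector with a vector -/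
theorem frm_eq (s : R →+* R) (A : Matrix (Fin n) (Fin n) R) (X Y : Fin n → R) :
    frm s A X Y = row s A X ⬝ᵥ Y := by
  unfold frm
  rw [Matrix.dotProduct_mulVec]
  rfl

/-- product of two reflections -/
theorem refl_mul (s : R →+* R) (A : Matrix (Fin n) (Fin n) R) (X Y : Fin n → R) (α β : R) :
    refl s A X α * refl s A Y β = 1 - α • Matrix.vecMulVec X (row s A X) -
      β • Matrix.vecMulVec Y (row s A Y) +
      (α * β * frm s A X Y) • Matrix.vecMulVec X (row s A Y) := by
  unfold refl
  have h : Matrix.vecMulVec X (row s A X) * Matrix.vecMulVec Y (row s A Y) =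
      frm s A X Y • Matrix.vecMulVec X (row s A Y) := by
    rw [frm_eq, Matrix.vecMulVec_mul_vecMulVec, Matrix.vecMulVec_smul]
  rw [Matrix.mul_sub, Matrix.sub_mul, Matrix.sub_mul, Matrix.mul_one, Matrix.one_mul,
    Matrix.mul_one, Matrix.smul_mul, Matrix.mul_smul, h, smul_smul, smul_smul]
  abel

/-- `S² = 1 - (2 α - α² ⟨X, X⟩) X (s(X)ᵗ A) = 1`. -/
theorem refl_sq (s : R →+* R) (A : Matrix (Fin n) (Fin n) R) (X : Fin n → R) (α : R) (h : α * α * frm s A X X = 2 * α) :
    refl s A X α * refl s A X α = 1 := by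
  rw [refl_mul, h, two_mul, add_smul]
  abel

/-- `s(S)ᵗ = 1 - α (A X) s(X)ᵗ` (using `s(A)ᵗ = A`, `s s = 1`), so
`s(S)ᵗ A S = A - (2 α - α² ⟨X, X⟩) (A X) (s(X)ᵗ A) = A`. -/
theorem refl_iso (s : R →+* R) (hss : ∀ x, s (s x) = x) (A : Matrix (Fin n) (Fin n) R) (hA : (A.map s)ᵀ = A) (X : Fin n → R)
    (α : R) (hα : s α = α) (h : α * α * frm s A X X = 2 * α) :
    ((refl s A X α).map s)ᵀ * A * refl s A X α = A := by
  have hA' : ∀ i l, s (A i l) = A l i := by
    intro i l
    have := congrFun (congrFun hA l) i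
    exact this
  have hrow : ∀ l, s (row s A X l) = (A *ᵥ X) l := by
    intro l
    unfold row
    rw [map_sum]
    refine Finset.sum_congr rfl fun i _ => ?_
    rw [map_mul, hss, hA', mul_comm]
  have h1 : ((refl s A X α).map s)ᵀ = 1 - α • Matrix.vecMulVec (A *ᵥ X) (fun i => s (X i)) := by
    ext i l
    unfold refl
    rw [Matrix.transpose_apply, Matrix.map_apply, Matrix.sub_apply, Matrix.sub_apply,
      Matrix.smul_apply, Matrix.smul_apply, Matrix.vecMulVec_apply, Matrix.vecMulVec_apply,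
      smul_eq_mul, smul_eq_mul, map_sub, map_mul, map_mul, hα, hrow]
    have h2 : s ((1 : Matrix (Fin n) (Fin n) R) l i) = (1 : Matrix (Fin n) (Fin n) R) i l := by
      rw [Matrix.one_apply, Matrix.one_apply]
      by_cases hil : l = i
      · rw [if_pos hil, if_pos hil.symm, map_one]
      · rw [if_neg hil, if_neg (fun hh => hil hh.symm), map_zero]
    rw [h2, mul_comm (s (X l))]
  have h3 : (fun i => s (X i)) ᵥ* A = row s A X := rfl
  have h4 : Matrix.vecMulVec (A *ᵥ X) (fun i => s (X i)) * A =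
      Matrix.vecMulVec (A *ᵥ X) (row s A X) := by
    rw [Matrix.vecMulVec_mul, h3]
  have h5 : A * Matrix.vecMulVec X (row s A X) = Matrix.vecMulVec (A *ᵥ X) (row s A X) := by
    rw [Matrix.mul_vecMulVec]
  have h6 : Matrix.vecMulVec (A *ᵥ X) (row s A X) * Matrix.vecMulVec X (row s A X) =
      frm s A X X • Matrix.vecMulVec (A *ᵥ X) (row s A X) := by
    rw [frm_eq, Matrix.vecMulVec_mul_vecMulVec, Matrix.vecMulVec_smul]
  rw [h1, Matrix.sub_mul, Matrix.one_mul, Matrix.smul_mul, h4]
  unfold refl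
  rw [Matrix.mul_sub, Matrix.mul_one, Matrix.mul_smul, Matrix.sub_mul, h5, Matrix.smul_mul, h6,
    smul_sub, smul_smul, smul_smul, h, two_mul, add_smul]
  abel

/-- `Matrix.det_one_add_replicateCol_mul_replicateRow` or similar. -/
theorem refl_det (s : R →+* R) (A : Matrix (Fin n) (Fin n) R) (X : Fin n → R) (α : R) :
    (refl s A X α).det = 1 - α * frm s A X X := by
  have h : refl s A X α = 1 + Matrix.replicateCol Unit (-α • X) * Matrix.replicateRow Unit (row s A X) := by
    unfold refl
    rw [← Matrix.vecMulVec_eq, neg_smul, Matrix.neg_vecMulVec, Matrix.smul_vecMulVec,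
      ← sub_eq_add_neg]
  rw [h, Matrix.det_one_add_replicateCol_mul_replicateRow, frm_eq, dotProduct_smul, smul_eq_mul]
  ring

theorem row_mem (s : R →+* R) (O : Subring R) (hsO : ∀ z ∈ O, s z ∈ O)
    (A : Matrix (Fin n) (Fin n) R) (hA : ∀ i l, A i l ∈ O) (x : Fin n → R) (hx : ∀ i, x i ∈ O)
    (l : Fin n) : row s A x l ∈ O :=
  sum_mem fun i _ => mul_mem (hsO _ (hx i)) (hA i l)

/-- `T = S(x, α) S(e, α')` with `α ⟨x, x⟩ = 2 ε`, `α' ⟨e, e⟩ = 2 ε`, `ε` idempotent, `α`, `α'` in `ε R`, `a α` and `α'` integral.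
`a T = a S(e, α') - (a α) x (ξ_x S(e, α'))`, `ξ_x = row x`; `S(e, α') e = (1 - 2 ε) e`; so with `u = x`, `w = - (a α) ξ_x S(e, α')`,
`Z = S(e, α')` one has `w·e = - (a α) (1 - 2 ε) ⟨x, e⟩ = (a α) ⟨x, e⟩`; `r (a α) ⟨x, e⟩ = ε = 1 - a q₀`; `v = r' row e`,
`v·x = r' ⟨e, x⟩ = ε`. Level: `a (T - 1) = ε a (T - 1)`, `a (T - 1)` is integral and `ε = N z₀`. `T' = S(e, α') S(x, α)`. -/
theorem near (s : R →+* R) (O : Subring R) (hsO : ∀ z ∈ O, s z ∈ O)
    (A : Matrix (Fin n) (Fin n) R) (hA : ∀ i l, A i l ∈ O) (a N : ℕ) (e x : Fin n → R) (he : ∀ i, e i ∈ O) (hx : ∀ i, x i ∈ O)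
    (ε : R) (hε : ε ∈ O) (hεε : ε * ε = ε) (q₀ : R) (hq₀ : q₀ ∈ O) (h1 : 1 - ε = (a : R) * q₀) (z₀ : R) (hz₀ : z₀ ∈ O) (hz : ε = (N : R) * z₀)
    (α α' : R) (hα : ε * α = α) (hα' : ε * α' = α') (hx2 : α * frm s A x x = 2 * ε) (he2 : α' * frm s A e e = 2 * ε)
    (hαO : (a : R) * α ∈ O) (hα'O : α' ∈ O) (r : R) (hr : r ∈ O) (hrr : r * ((a : R) * α * frm s A x e) = ε)
    (r' : R) (hr' : r' ∈ O) (hrr' : r' * frm s A e x = ε) :
    RankOne O a e (refl s A x α * refl s A e α') ∧ Lev O a N (refl s A x α * refl s A e α') ∧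
      Lev O a N (refl s A e α' * refl s A x α) := by
  have hrx := row_mem s O hsO A hA x hx
  have hre := row_mem s O hsO A hA e he
  have hfxe : frm s A x e ∈ O := by
    rw [frm_eq]
    exact sum_mem fun i _ => mul_mem (hrx i) (he i)
  have hfex : frm s A e x ∈ O := by
    rw [frm_eq]
    exact sum_mem fun i _ => mul_mem (hre i) (hx i)
  have haO : (a : R) ∈ O := natCast_mem O a
  have hone : ∀ i l, (1 : Matrix (Fin n) (Fin n) R) i l ∈ O := by
    intro i l
    rw [Matrix.one_apply]
    by_cases h : i = l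
    · rw [if_pos h]; exact one_mem O
    · rw [if_neg h]; exact zero_mem O
  -- entries
  have hT : ∀ i l, (refl s A x α * refl s A e α') i l = (1 : Matrix (Fin n) (Fin n) R) i l -
      α * (x i * row s A x l) - α' * (e i * row s A e l) +
        α * α' * frm s A x e * (x i * row s A e l) := by
    intro i l
    rw [refl_mul]
    rfl
  have hT' : ∀ i l, (refl s A e α' * refl s A x α) i l = (1 : Matrix (Fin n) (Fin n) R) i l -
      α' * (e i * row s A e l) - α * (x i * row s A x l) +
        α' * α * frm s A e x * (e i * row s A x l) := by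
    intro i l
    rw [refl_mul]
    rfl
  refine ⟨?_, ?_, ?_⟩
  · refine ⟨x, fun l => -((a : R) * α) * row s A x l + (a : R) * α * α' * frm s A x e * row s A e l,
      fun i l => (1 : Matrix (Fin n) (Fin n) R) i l - α' * (e i * row s A e l), hx, fun l => ?_,
      fun i l => ?_, fun i l => ?_, ?_, ?_⟩
    · exact add_mem (mul_mem (neg_mem hαO) (hrx l))
        (mul_mem (mul_mem (mul_mem hαO hα'O) hfxe) (hre l))
    · exact sub_mem (hone i l) (mul_mem hα'O (mul_mem (he i) (hre l)))
    · rw [hT]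
      ring
    · refine ⟨r, hr, -q₀, neg_mem hq₀, ?_⟩
      have hw : (fun l => -((a : R) * α) * row s A x l + (a : R) * α * α' * frm s A x e * row s A e l)
          ⬝ᵥ e = (a : R) * α * frm s A x e := by
        have e1 : (fun l => -((a : R) * α) * row s A x l + (a : R) * α * α' * frm s A x e * row s A e l)
          ⬝ᵥ e = -((a : R) * α) * frm s A x e + (a : R) * α * α' * frm s A x e * frm s A e e := by
          have e3 : frm s A x e = ∑ i, row s A x i * e i := frm_eq s A x e
          have e4 : frm s A e e = ∑ i, row s A e i * e i := frm_eq s A e e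
          obtain ⟨c, hc⟩ : ∃ c, c = (a : R) * α * α' * frm s A x e := ⟨_, rfl⟩
          rw [← hc, e3, e4]
          unfold dotProduct
          rw [Finset.mul_sum, Finset.mul_sum, ← Finset.sum_add_distrib]
          refine Finset.sum_congr rfl fun i _ => ?_
          ring
        rw [e1]
        have e2 : (a : R) * α * α' * frm s A x e * frm s A e e = 2 * ((a : R) * α * frm s A x e) := by
          calc (a : R) * α * α' * frm s A x e * frm s A e e =
              (a : R) * α * frm s A x e * (α' * frm s A e e) := by ring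
            _ = (a : R) * (ε * α) * frm s A x e * 2 := by rw [he2]; ring
            _ = 2 * ((a : R) * α * frm s A x e) := by rw [hα]; ring
        rw [e2]
        ring
      rw [hw, hrr]
      linear_combination -h1
    · refine ⟨fun i => r' * row s A e i, fun i => mul_mem hr' (hre i), -q₀, neg_mem hq₀, ?_⟩
      have hv : (fun i => r' * row s A e i) ⬝ᵥ x = r' * frm s A e x := by
        rw [frm_eq]
        unfold dotProduct
        rw [Finset.mul_sum]
        refine Finset.sum_congr rfl fun i _ => ?_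
        ring
      rw [hv, hrr']
      linear_combination -h1
  · intro i l
    refine ⟨z₀ * (-((a : R) * α) * (x i * row s A x l) - (a : R) * (α' * (e i * row s A e l)) +
        (a : R) * α * α' * frm s A x e * (x i * row s A e l)),
      mul_mem hz₀ (add_mem (sub_mem (mul_mem (neg_mem hαO) (mul_mem (hx i) (hrx l)))
        (mul_mem haO (mul_mem hα'O (mul_mem (he i) (hre l)))))
        (mul_mem (mul_mem (mul_mem hαO hα'O) hfxe) (mul_mem (hx i) (hre l)))), ?_⟩
    rw [hT, ← mul_assoc (N : R) z₀, ← hz]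
    linear_combination (a : R) * (x i * row s A x l) * hα + (a : R) * (e i * row s A e l) * hα' -
      (a : R) * α' * frm s A x e * (x i * row s A e l) * hα
  · intro i l
    refine ⟨z₀ * (-((a : R) * α) * (x i * row s A x l) - (a : R) * (α' * (e i * row s A e l)) +
        (a : R) * α * α' * frm s A e x * (e i * row s A x l)),
      mul_mem hz₀ (add_mem (sub_mem (mul_mem (neg_mem hαO) (mul_mem (hx i) (hrx l)))
        (mul_mem haO (mul_mem hα'O (mul_mem (he i) (hre l)))))
        (mul_mem (mul_mem (mul_mem hαO hα'O) hfex) (mul_mem (he i) (hrx l)))), ?_⟩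
    rw [hT', ← mul_assoc (N : R) z₀, ← hz]
    linear_combination (a : R) * (x i * row s A x l) * hα + (a : R) * (e i * row s A e l) * hα' -
      (a : R) * α' * frm s A e x * (e i * row s A x l) * hα

end Pool.Agent.H497.GQ
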