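import Pool.Agent.H497.GQ.LevTri

set_option autoImplicit false

open scoped Matrix

namespace Pool.Agent.H497.GQ

variable {n : ℕ} {R : Type} [CommRing R]



section aux

variable {O : Subring R}

theorem q_mulVec {X : Matrix (Fin n) (Fin n) R} {x : Fin n → R} (hX : ∀ i l, X i l ∈ O)
    (hx : ∀ i, x i ∈ O) : ∀ i, (X *ᵥ x) i ∈ O := by
  intro i
  rw [Matrix.mulVec, dotProduct]
  exact O.sum_mem fun l _ => O.mul_mem (hX i l) (hx l)

theorem q_dot {x y : Fin n → R} (hx : ∀ i, x i ∈ O) (hy : ∀ i, y i ∈ O) : x ⬝ᵥ y ∈ O :=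
  O.sum_mem fun l _ => O.mul_mem (hx l) (hy l)

theorem q_mul {X Y : Matrix (Fin n) (Fin n) R} (hX : ∀ i l, X i l ∈ O) (hY : ∀ i l, Y i l ∈ O) :
    ∀ i l, (X * Y) i l ∈ O := by
  intro i l
  rw [Matrix.mul_apply]
  exact O.sum_mem fun j _ => O.mul_mem (hX i j) (hY j l)

theorem q_one (i l : Fin n) : (1 : Matrix (Fin n) (Fin n) R) i l ∈ O := by
  rw [Matrix.one_apply]
  split_ifs
  · exact O.one_mem
  · exact O.zero_mem

theorem q_cop {p q : ℕ} (h : p.Coprime q) {x : R} (h1 : (p : R) * x ∈ O) (h2 : (q : R) * x ∈ O) :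
    x ∈ O := by
  obtain ⟨α, β, hab⟩ := Nat.isCoprime_iff_coprime.2 h
  have h3 : (α : R) * (p : R) + (β : R) * (q : R) = 1 := by
    have := congrArg (Int.cast : ℤ → R) hab
    push_cast at this
    exact this
  have h4 : x = (α : R) * ((p : R) * x) + (β : R) * ((q : R) * x) := by
    linear_combination (-x) * h3
  rw [h4]
  exact O.add_mem (O.mul_mem (intCast_mem O α) h1) (O.mul_mem (intCast_mem O β) h2)

/-- coprime level -/
theorem q_lev {p N : ℕ} (h : p.Coprime N) {x : R} (hx : x ∈ O)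
    (h1 : ∃ z ∈ O, (p : R) * x = (N : R) * z) : ∃ z ∈ O, ((1 : ℕ) : R) * x = (N : R) * z := by
  obtain ⟨α, β, hab⟩ := Nat.isCoprime_iff_coprime.2 h
  obtain ⟨z, hz, hz'⟩ := h1
  have h3 : (α : R) * (p : R) + (β : R) * (N : R) = 1 := by
    have := congrArg (Int.cast : ℤ → R) hab
    push_cast at this
    exact this
  refine ⟨(α : R) * z + (β : R) * x, O.add_mem (O.mul_mem (intCast_mem O α) hz)
    (O.mul_mem (intCast_mem O β) hx), ?_⟩
  push_cast
  linear_combination (-x) * h3 + (α : R) * hz'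

theorem q_int_of_lev {N : ℕ} {X : Matrix (Fin n) (Fin n) R} (h : Lev O 1 N X) :
    ∀ i l, X i l ∈ O := by
  intro i l
  obtain ⟨z, hz, h1⟩ := h i l
  have h2 : X i l = (1 : Matrix (Fin n) (Fin n) R) i l + (N : R) * z := by
    push_cast at h1
    linear_combination h1
  rw [h2]
  exact O.add_mem (q_one i l) (O.mul_mem (natCast_mem O N) hz)

theorem q_smul_int_of_lev {a N : ℕ} {X : Matrix (Fin n) (Fin n) R} (h : Lev O a N X) :
    ∀ i l, (a : R) * X i l ∈ O := by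
  intro i l
  obtain ⟨z, hz, h1⟩ := h i l
  have h2 : (a : R) * X i l = (a : R) * (1 : Matrix (Fin n) (Fin n) R) i l + (N : R) * z := by
    linear_combination h1
  rw [h2]
  exact O.add_mem (O.mul_mem (natCast_mem O a) (q_one i l)) (O.mul_mem (natCast_mem O N) hz)

theorem q_frm_iso (s : R →+* R) {A X : Matrix (Fin n) (Fin n) R} (h : (X.map s)ᵀ * A * X = A)
    (x y : Fin n → R) : frm s A (X *ᵥ x) (X *ᵥ y) = frm s A x y := by
  unfold frm
  have h1 : (fun i => s ((X *ᵥ x) i)) = (X.map s) *ᵥ (fun i => s (x i)) := by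
    funext i
    rw [Matrix.mulVec, Matrix.mulVec, dotProduct, dotProduct, map_sum]
    refine Finset.sum_congr rfl fun l _ => ?_
    rw [map_mul, Matrix.map_apply]
  rw [h1, ← Matrix.vecMul_transpose, ← Matrix.dotProduct_mulVec, Matrix.mulVec_mulVec,
    Matrix.mulVec_mulVec]
  rw [h]

theorem q_frm_mem (s : R →+* R) (hs : ∀ z ∈ O, s z ∈ O) {A : Matrix (Fin n) (Fin n) R}
    (hA : ∀ i l, A i l ∈ O) {x y : Fin n → R} (hx : ∀ i, x i ∈ O) (hy : ∀ i, y i ∈ O) :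
    frm s A x y ∈ O := q_dot (fun i => hs _ (hx i)) (q_mulVec hA hy)

/-- step (1) -/
theorem q_step1 (hreg : ∀ m : ℕ, 0 < m → ∀ x y : R, (m : R) * x = (m : R) * y → x = y)
    {a : ℕ} (ha : 0 < a) {e : Fin n → R} (he : ∀ i, e i ∈ O)
    {T h k k' : Matrix (Fin n) (Fin n) R}
    (ik : ∀ i l, k i l ∈ O) (ik' : ∀ i l, k' i l ∈ O)
    (hhe : h *ᵥ e = e) (heq : T * h = k * T * k')
    {u w : Fin n → R} {Z : Matrix (Fin n) (Fin n) R} (hu : ∀ i, u i ∈ O) (hw : ∀ i, w i ∈ O)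
    (hZ : ∀ i l, Z i l ∈ O) (hTa : ∀ i l, (a : R) * T i l = u i * w l + (a : R) * Z i l)
    {r : R} (hr : r ∈ O) {q : R} (hq : q ∈ O) (hrq : r * (w ⬝ᵥ e) = 1 + (a : R) * q)
    {v : Fin n → R} (hv : ∀ i, v i ∈ O) {q' : R} (hq' : q' ∈ O) (hvq : v ⬝ᵥ u = 1 + (a : R) * q')
    {x : Fin n → R} (hx : ∀ i, x i ∈ O) :
    ∃ ρ ∈ O, ∃ m : Fin n → R, (∀ i, m i ∈ O) ∧ T *ᵥ (h *ᵥ x) = ρ • (T *ᵥ e) + m := by
  have haT : ∀ y : Fin n → R, (a : R) • (T *ᵥ y) = (w ⬝ᵥ y) • u + (a : R) • (Z *ᵥ y) := by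
    intro y
    funext i
    simp only [Pi.smul_apply, Pi.add_apply, smul_eq_mul, Matrix.mulVec, dotProduct]
    rw [Finset.mul_sum, Finset.sum_mul, Finset.mul_sum, ← Finset.sum_add_distrib]
    refine Finset.sum_congr rfl fun l _ => ?_
    linear_combination y l * hTa i l
  have hE0 : ∀ y : Fin n → R, (a : R) • (T *ᵥ (h *ᵥ y)) =
      (w ⬝ᵥ (k' *ᵥ y)) • (k *ᵥ u) + (a : R) • (k *ᵥ (Z *ᵥ (k' *ᵥ y))) := by
    intro y
    have h1 : T *ᵥ (h *ᵥ y) = k *ᵥ (T *ᵥ (k' *ᵥ y)) := by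
      rw [Matrix.mulVec_mulVec, heq, Matrix.mulVec_mulVec, Matrix.mulVec_mulVec]
    rw [h1, ← Matrix.mulVec_smul, haT, Matrix.mulVec_add, Matrix.mulVec_smul, Matrix.mulVec_smul]
  have hE1 := hE0 e
  rw [hhe, haT e] at hE1
  have iku : ∀ i, (k *ᵥ u) i ∈ O := q_mulVec ik hu
  have ize : ∀ i, (Z *ᵥ e) i ∈ O := q_mulVec hZ he
  have ikz : ∀ i, (k *ᵥ (Z *ᵥ (k' *ᵥ e))) i ∈ O := q_mulVec ik (q_mulVec hZ (q_mulVec ik' he))
  have ikx : ∀ i, (k *ᵥ (Z *ᵥ (k' *ᵥ x))) i ∈ O := q_mulVec ik (q_mulVec hZ (q_mulVec ik' hx))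
  have hE1v := congrArg (fun y => v ⬝ᵥ y) hE1
  simp only [dotProduct_add, dotProduct_smul, smul_eq_mul] at hE1v
  have hTe := haT e
  have hTx := hE0 x
  have ic : w ⬝ᵥ (k' *ᵥ e) ∈ O := q_dot hw (q_mulVec ik' he)
  have iσ : w ⬝ᵥ (k' *ᵥ x) ∈ O := q_dot hw (q_mulVec ik' hx)
  have iω : w ⬝ᵥ e ∈ O := q_dot hw he
  have i1 : v ⬝ᵥ (k *ᵥ u) ∈ O := q_dot hv iku
  have i2 : v ⬝ᵥ (Z *ᵥ e) ∈ O := q_dot hv ize
  have i3 : v ⬝ᵥ (k *ᵥ (Z *ᵥ (k' *ᵥ e))) ∈ O := q_dot hv ikz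
  rw [hvq] at hE1v
  generalize hku : k *ᵥ u = ku at *
  generalize hze : Z *ᵥ e = ze at *
  generalize hkz : k *ᵥ (Z *ᵥ (k' *ᵥ e)) = kz at *
  generalize hkx : k *ᵥ (Z *ᵥ (k' *ᵥ x)) = kx at *
  generalize w ⬝ᵥ (k' *ᵥ e) = c at *
  generalize w ⬝ᵥ (k' *ᵥ x) = σ at *
  generalize w ⬝ᵥ e = ω at *
  generalize v ⬝ᵥ ku = t1 at *
  generalize v ⬝ᵥ ze = t2 at *
  generalize v ⬝ᵥ kz = t3 at *
  -- p2
  set p1 : R := -(q' * ω) - t2 + t3 with hp1
  have ip1 : p1 ∈ O := O.add_mem (O.sub_mem (O.neg_mem (O.mul_mem hq' iω)) i2) i3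
  set p2 : R := r * p1 - q with hp2
  have ip2 : p2 ∈ O := O.sub_mem (O.mul_mem hr ip1) hq
  have e1 : ω = c * t1 + (a : R) * p1 := by
    rw [hp1]
    linear_combination hE1v
  have e2 : 1 = c * (r * t1) + (a : R) * p2 := by
    rw [hp2]
    linear_combination r * e1 - hrq
  refine ⟨r * t1 * σ, O.mul_mem (O.mul_mem hr i1) iσ,
    fun i => σ * (-(r * t1 * kz i) + p2 * ku i) + kx i, ?_, ?_⟩
  · intro i
    refine O.add_mem (O.mul_mem iσ (O.add_mem (O.neg_mem (O.mul_mem (O.mul_mem hr i1) (ikz i)))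
      (O.mul_mem ip2 (iku i)))) (ikx i)
  · funext i
    apply hreg a ha
    have f1 := congrFun hE1 i
    have f2 := congrFun hTe i
    have f3 := congrFun hTx i
    simp only [Pi.smul_apply, Pi.add_apply, smul_eq_mul] at f1 f2 f3 ⊢
    rw [f3]
    linear_combination (σ * ku i) * e2 - (r * t1 * σ) * f1 - (r * t1 * σ) * f2

/-- steps (2) and (3) -/
theorem q_step3 (s : R →+* R) (hreg : ∀ m : ℕ, 0 < m → ∀ x y : R, (m : R) * x = (m : R) * y → x = y)
    (hs : ∀ z ∈ O, s z ∈ O) {A B : Matrix (Fin n) (Fin n) R} (hA : ∀ i l, A i l ∈ O)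
    (hB : ∀ i l, B i l ∈ O)
    {d a : ℕ} (ha : 0 < a) (hBA : B * A = (d : R) • (1 : Matrix (Fin n) (Fin n) R))
    (hda : d.Coprime a)
    {e : Fin n → R} (he : ∀ i, e i ∈ O)
    {T T' h : Matrix (Fin n) (Fin n) R}
    (hTT : T * T' = 1) (hTT' : T' * T = 1)
    (isoT : (T.map s)ᵀ * A * T = A) (isoh : (h.map s)ᵀ * A * h = A)
    (iT' : ∀ i l, (a : R) * T' i l ∈ O)
    (hhe : h *ᵥ e = e)
    {u w : Fin n → R} {Z : Matrix (Fin n) (Fin n) R} (hu : ∀ i, u i ∈ O) (hw : ∀ i, w i ∈ O)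
    (hZ : ∀ i l, Z i l ∈ O) (hTa : ∀ i l, (a : R) * T i l = u i * w l + (a : R) * Z i l)
    {r : R} (hr : r ∈ O) {q : R} (hq : q ∈ O) (hrq : r * (w ⬝ᵥ e) = 1 + (a : R) * q)
    {x : Fin n → R} (hx : ∀ i, x i ∈ O) {ρ : R} (hρ : ρ ∈ O) {m : Fin n → R}
    (hm : ∀ i, m i ∈ O) (hE3 : T *ᵥ (h *ᵥ x) = ρ • (T *ᵥ e) + m) : ∀ i, (h *ᵥ x) i ∈ O := by
  have h1 : h *ᵥ x = ρ • e + T' *ᵥ m := by
    have h2 := congrArg (fun y => T' *ᵥ y) hE3
    simp only [Matrix.mulVec_add, Matrix.mulVec_smul] at h2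
    rw [Matrix.mulVec_mulVec, Matrix.mulVec_mulVec (v := e), hTT', Matrix.one_mulVec,
      Matrix.one_mulVec] at h2
    exact h2
  -- (2)
  have iAm : ∀ i, (A *ᵥ m) i ∈ O := q_mulVec hA hm
  have f1 : frm s A (T *ᵥ e) m = frm s A e x - ρ * frm s A e e := by
    have h2 : frm s A (T *ᵥ e) m = frm s A e (T' *ᵥ m) := by
      rw [← q_frm_iso s isoT e (T' *ᵥ m), Matrix.mulVec_mulVec (M := T) (N := T'), hTT, Matrix.one_mulVec]
    have h3 : T' *ᵥ m = h *ᵥ x - ρ • e := by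
      rw [h1]
      abel
    have h4 : frm s A e (h *ᵥ x) = frm s A e x := by
      have := q_frm_iso s isoh e x
      rw [hhe] at this
      exact this
    rw [h2, h3]
    have h5 : frm s A e (h *ᵥ x - ρ • e) = frm s A e (h *ᵥ x) - ρ * frm s A e e := by
      unfold frm
      rw [Matrix.mulVec_sub, Matrix.mulVec_smul, dotProduct_sub, dotProduct_smul, smul_eq_mul]
    rw [h5, h4]
  have f1' : frm s A (T *ᵥ e) m ∈ O := by
    rw [f1]
    exact O.sub_mem (q_frm_mem s hs hA he hx) (O.mul_mem hρ (q_frm_mem s hs hA he he))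
  have f2 : (a : R) * frm s A (T *ᵥ e) m =
      s (w ⬝ᵥ e) * frm s A u m + (a : R) * frm s A (Z *ᵥ e) m := by
    have haT : ∀ i, (a : R) * (T *ᵥ e) i = (w ⬝ᵥ e) * u i + (a : R) * (Z *ᵥ e) i := by
      intro i
      simp only [Matrix.mulVec, dotProduct]
      rw [Finset.mul_sum, Finset.sum_mul, Finset.mul_sum, ← Finset.sum_add_distrib]
      refine Finset.sum_congr rfl fun l _ => ?_
      linear_combination e l * hTa i l
    have hdot : ∀ y : Fin n → R, frm s A y m = ∑ i, s (y i) * (A *ᵥ m) i := fun _ => rfl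
    rw [hdot, hdot, hdot, Finset.mul_sum,
      Finset.mul_sum, Finset.mul_sum, ← Finset.sum_add_distrib]
    refine Finset.sum_congr rfl fun i _ => ?_
    have h2 := congrArg s (haT i)
    simp only [map_mul, map_add, map_natCast] at h2
    linear_combination (A *ᵥ m) i * h2
  have iu : frm s A u m ∈ O := q_frm_mem s hs hA hu hm
  have iz : frm s A (Z *ᵥ e) m ∈ O := q_frm_mem s hs hA (q_mulVec hZ he) hm
  have hrq' : s r * s (w ⬝ᵥ e) = 1 + (a : R) * s q := by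
    have := congrArg s hrq
    simp only [map_mul, map_add, map_natCast, map_one] at this
    exact this
  obtain ⟨p3, ip3, hp3⟩ : ∃ p3 ∈ O, frm s A u m = (a : R) * p3 := by
    refine ⟨s r * (frm s A (T *ᵥ e) m - frm s A (Z *ᵥ e) m) - s q * frm s A u m,
      O.sub_mem (O.mul_mem (hs _ hr) (O.sub_mem f1' iz)) (O.mul_mem (hs _ hq) iu), ?_⟩
    linear_combination (-(frm s A u m)) * hrq' - s r * f2
  -- (3)
  have g1 : ∀ l, (A *ᵥ (T' *ᵥ m)) l ∈ O := by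
    intro l
    have h2 : A * T' = (T.map s)ᵀ * A := by
      calc A * T' = ((T.map s)ᵀ * A * T) * T' := by rw [isoT]
        _ = (T.map s)ᵀ * A * (T * T') := by rw [Matrix.mul_assoc]
        _ = (T.map s)ᵀ * A := by rw [hTT, Matrix.mul_one]
    have h3 : (A *ᵥ (T' *ᵥ m)) l = ∑ i, s (T i l) * (A *ᵥ m) i := by
      rw [Matrix.mulVec_mulVec, h2, ← Matrix.mulVec_mulVec]
      rfl
    have h4 : (A *ᵥ (T' *ᵥ m)) l = s (w l) * p3 + ∑ i, s (Z i l) * (A *ᵥ m) i := by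
      apply hreg a ha
      rw [h3, mul_add, Finset.mul_sum, Finset.mul_sum]
      have h5 : (a : R) * (s (w l) * p3) = ∑ i, s (w l) * (s (u i) * (A *ᵥ m) i) := by
        rw [← Finset.mul_sum]
        have h6 : (∑ i, s (u i) * (A *ᵥ m) i) = frm s A u m := rfl
        rw [h6, hp3]
        ring
      rw [h5, ← Finset.sum_add_distrib]
      refine Finset.sum_congr rfl fun i _ => ?_
      have h7 := congrArg s (hTa i l)
      simp only [map_mul, map_add, map_natCast] at h7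
      linear_combination (A *ᵥ m) i * h7
    rw [h4]
    exact O.add_mem (O.mul_mem (hs _ (hw l)) ip3)
      (O.sum_mem fun i _ => O.mul_mem (hs _ (hZ i l)) (iAm i))
  have g2 : ∀ i, (d : R) * (T' *ᵥ m) i ∈ O := by
    intro i
    have h2 : (d : R) * (T' *ᵥ m) i = (B *ᵥ (A *ᵥ (T' *ᵥ m))) i := by
      rw [Matrix.mulVec_mulVec (M := B), hBA, Matrix.smul_mulVec, Matrix.one_mulVec]
      rfl
    rw [h2]
    exact q_mulVec hB g1 i
  have g3 : ∀ i, (a : R) * (T' *ᵥ m) i ∈ O := by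
    intro i
    have h2 : (a : R) * (T' *ᵥ m) i = ∑ l, ((a : R) * T' i l) * m l := by
      rw [Matrix.mulVec, dotProduct, Finset.mul_sum]
      exact Finset.sum_congr rfl fun l _ => by ring
    rw [h2]
    exact O.sum_mem fun l _ => O.mul_mem (iT' i l) (hm l)
  intro i
  rw [h1]
  exact O.add_mem (O.mul_mem hρ (he i)) (q_cop hda (g2 i) (g3 i))

end aux

/-- Uniqueness. Notation `≡` for congruence modulo `a O`. Put `ω = w·e`, `c = w·(k' e)`.
(1) From `a T e = a T h e = a k T k' e`: `u ω ≡ (k u) c`, so `ω ≡ (v·ku) c`, and `1 ≡ r ω ≡ c' c` for `c' = r (v·ku)`, so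
`k u ≡ k u c c' ≡ u ω c' ≡ (a T e) c'`. For integral `x`: `a T h x = a k T k' x ≡ (k u)(w·k' x) ≡ (a T e) c' σ`, `σ = w·k' x`. So
`T h x = ρ T e + m` with `ρ = c' σ ∈ O`, `m` integral (`hreg`: multiplication by `a` is injective).
(2) So `h x = ρ e + T⁻¹ m`. Now `⟨T e, m⟩ = ⟨e, T⁻¹ m⟩ = ⟨e, h x⟩ - ρ ⟨e, e⟩ = ⟨h e, h x⟩ - ρ ⟨e, e⟩ = ⟨e, x⟩ - ρ ⟨e, e⟩ ∈ O`
(`T`, `h` isometries). With `a T e = u ω + a Z e`: `s(ω) ⟨u, m⟩ ≡ 0`, multiply by `s(r)`: `⟨u, m⟩ ≡ 0`.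
(3) `s(T)ᵗ A T = A` gives `A T⁻¹ = s(T)ᵗ A`, `a s(T)ᵗ = s(w) s(u)ᵗ + a s(Z)ᵗ`, so `a A T⁻¹ m = s(w) ⟨u, m⟩ + a s(Z)ᵗ A m` is in
`a Oⁿ`, so `A T⁻¹ m` is integral, `d T⁻¹ m = B A T⁻¹ m` is integral; `a T⁻¹ m` is integral (`hT'`, `a T⁻¹ = a + a (T⁻¹ - 1)`);
`d` and `a` are coprime, so `T⁻¹ m` is integral, and `h x` is integral. Take for `x` the standard basis.
(4) `h⁻¹`: `A h⁻¹ = s(h)ᵗ A` is integral, so `d h⁻¹` is integral; `h⁻¹ = k'⁻¹ T⁻¹ k⁻¹ T`, so `a² h⁻¹` is integral; coprime.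
(5) `a² (h - 1) ∈ N O` (`h = T⁻¹ k T k'`, as in `lev_mul`), `h - 1` integral, `a²` and `N` coprime: `h - 1 ∈ N O`. Same for `h⁻¹`. -/
theorem uniq (s : R →+* R) (O : Subring R) (hreg : ∀ m : ℕ, 0 < m → ∀ x y : R, (m : R) * x = (m : R) * y → x = y)
    (hs : ∀ z ∈ O, s z ∈ O) (A B : Matrix (Fin n) (Fin n) R) (hA : ∀ i l, A i l ∈ O) (hB : ∀ i l, B i l ∈ O)
    (d a N : ℕ) (ha : 0 < a) (hBA : B * A = (d : R) • (1 : Matrix (Fin n) (Fin n) R)) (hda : d.Coprime a) (haN : a.Coprime N)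
    (e : Fin n → R) (he : ∀ i, e i ∈ O)
    (T T' h h' k k' k₁ k₁' : Matrix (Fin n) (Fin n) R) (hTT : T * T' = 1) (hTT' : T' * T = 1) (hh : h * h' = 1) (hh' : h' * h = 1)
    (hkk : k * k₁ = 1) (hkk' : k' * k₁' = 1) (hk1 : k₁ * k = 1) (hk1' : k₁' * k' = 1)
    (isoT : (T.map s)ᵀ * A * T = A) (isoh : (h.map s)ᵀ * A * h = A)
    (hT : RankOne O a e T) (hTl : Lev O a N T) (hT' : Lev O a N T')
    (lk : Lev O 1 N k) (lk' : Lev O 1 N k') (lk₁ : Lev O 1 N k₁) (lk₁' : Lev O 1 N k₁')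
    (hhe : h *ᵥ e = e) (heq : T * h = k * T * k') :
    Lev O 1 N h ∧ Lev O 1 N h' := by
  obtain ⟨u, w, Z, hu, hw, hZ, hTa, ⟨r, hr, q, hq, hrq⟩, v, hv, q', hq', hvq⟩ := hT
  have ik := q_int_of_lev lk
  have ik' := q_int_of_lev lk'
  have ik₁ := q_int_of_lev lk₁
  have ik₁' := q_int_of_lev lk₁'
  have iT := q_smul_int_of_lev hTl
  have iT' := q_smul_int_of_lev hT'
  -- `h` is integral
  have ih : ∀ i l, h i l ∈ O := by
    intro i l
    have hx : ∀ j, (Pi.single l (1 : R) : Fin n → R) j ∈ O := by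
      intro j
      by_cases hj : j = l
      · subst hj
        rw [Pi.single_eq_same]
        exact O.one_mem
      · rw [Pi.single_eq_of_ne hj]
        exact O.zero_mem
    obtain ⟨ρ, hρ, m, hm, hE⟩ := q_step1 hreg ha he ik ik' hhe heq hu hw hZ hTa hr hq hrq hv hq'
      hvq hx
    have h1 := q_step3 s hreg hs hA hB ha hBA hda he hTT hTT' isoT isoh iT' hhe hu hw hZ hTa hr hq
      hrq hx hρ hm hE i
    rw [Matrix.mulVec_single_one] at h1
    exact h1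
  -- `h'` is integral
  have eh : h = T' * k * T * k' := by
    calc h = (T' * T) * h := by rw [hTT', Matrix.one_mul]
      _ = T' * (T * h) := by rw [Matrix.mul_assoc]
      _ = T' * k * T * k' := by rw [heq]; simp only [Matrix.mul_assoc]
  have eh' : h' = k₁' * T' * k₁ * T := by
    have h1 : h * (k₁' * T' * k₁ * T) = 1 := by
      rw [eh]
      calc T' * k * T * k' * (k₁' * T' * k₁ * T) = T' * k * T * (k' * k₁') * T' * k₁ * T := by
            simp only [Matrix.mul_assoc]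
        _ = T' * k * (T * T') * k₁ * T := by
            rw [hkk']
            simp only [Matrix.mul_assoc, Matrix.one_mul]
        _ = T' * (k * k₁) * T := by
            rw [hTT]
            simp only [Matrix.mul_assoc, Matrix.one_mul]
        _ = 1 := by rw [hkk, Matrix.mul_one, hTT']
    calc h' = h' * (h * (k₁' * T' * k₁ * T)) := by rw [h1, Matrix.mul_one]
      _ = (h' * h) * (k₁' * T' * k₁ * T) := (Matrix.mul_assoc _ _ _).symm
      _ = k₁' * T' * k₁ * T := by rw [hh', Matrix.one_mul]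
  have ih' : ∀ i l, h' i l ∈ O := by
    intro i l
    have h1 : (d : R) * h' i l ∈ O := by
      have h2 : A * h' = (h.map s)ᵀ * A := by
        calc A * h' = ((h.map s)ᵀ * A * h) * h' := by rw [isoh]
          _ = (h.map s)ᵀ * A * (h * h') := by rw [Matrix.mul_assoc]
          _ = (h.map s)ᵀ * A := by rw [hh, Matrix.mul_one]
      have h3 : (d : R) * h' i l = (B * ((h.map s)ᵀ * A)) i l := by
        rw [← h2, ← Matrix.mul_assoc, hBA, Matrix.smul_mul, Matrix.one_mul]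
        rfl
      rw [h3]
      refine q_mul hB (q_mul ?_ hA) i l
      intro i l
      exact hs _ (ih l i)
    have h2 : ((a * a : ℕ) : R) * h' i l ∈ O := by
      have h3 : ((a * a : ℕ) : R) * h' i l = (k₁' * ((a : R) • T') * k₁ * ((a : R) • T)) i l := by
        rw [eh']
        simp only [Matrix.mul_smul, Matrix.smul_mul, Matrix.smul_apply, smul_eq_mul]
        push_cast
        ring
      rw [h3]
      exact q_mul (q_mul (q_mul ik₁' iT') ik₁) iT i l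
    exact q_cop (Nat.Coprime.mul_right hda hda) h1 h2
  have haN2 : (a * a).Coprime N := Nat.Coprime.mul_left haN haN
  have l1 : Lev O 1 N (1 : Matrix (Fin n) (Fin n) R) := by
    intro i l
    exact ⟨0, O.zero_mem, by simp⟩
  constructor
  · have h1 := lev_mul O N a a 1 k T T' l1 lk hTl hT'
    have h2 := lev_mul O N 1 (a * a) 1 1 k' (1 * T' * k * T) l1 l1 lk' h1
    have h3 : 1 * (1 * T' * k * T) * 1 * k' = h := by
      rw [eh]
      simp only [Matrix.one_mul, Matrix.mul_one]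
    rw [h3, one_mul] at h2
    intro i l
    exact q_lev haN2 (O.sub_mem (ih i l) (q_one i l)) (h2 i l)
  · have h1 := lev_mul O N a a k₁' k₁ T T' lk₁' lk₁ hTl hT'
    rw [← eh'] at h1
    intro i l
    exact q_lev haN2 (O.sub_mem (ih' i l) (q_one i l)) (h1 i l)

end Pool.Agent.H497.GQ
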