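import Pool.Agent.H497.GQ.Big
import Pool.Agent.H497.GQ.Uniq
import Pool.Agent.H497.GQ.Refl
import Pool.Agent.H497.GQ.Idem
import Pool.Agent.H497.GQ.OEfin

set_option autoImplicit false

open scoped TensorProduct Matrix ComplexConjugate
open IsDedekindDomain NumberField

namespace Pool.Agent.H497.GP

open Pool.Agent.H497.GQ

theorem two_refl {n : ℕ} {R : Type} [CommRing R] (s : R →+* R) (A S₁ S₂ : Matrix (Fin n) (Fin n) R)
    (q1 : S₁ * S₁ = 1) (q2 : S₂ * S₂ = 1) (i1 : (S₁.map s)ᵀ * A * S₁ = A) (i2 : (S₂.map s)ᵀ * A * S₂ = A)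
    (ε : R) (hεε : ε * ε = ε) (d1 : S₁.det = 1 - 2 * ε) (d2 : S₂.det = 1 - 2 * ε) :
    S₁ * S₂ * (S₂ * S₁) = 1 ∧ S₂ * S₁ * (S₁ * S₂) = 1 ∧ ((S₁ * S₂).map s)ᵀ * A * (S₁ * S₂) = A ∧
      (S₁ * S₂).det = 1 := by
  refine ⟨?_, ?_, ?_, ?_⟩
  · calc S₁ * S₂ * (S₂ * S₁) = S₁ * (S₂ * S₂) * S₁ := by simp only [Matrix.mul_assoc]
      _ = 1 := by rw [q2, Matrix.mul_one, q1]
  · calc S₂ * S₁ * (S₁ * S₂) = S₂ * (S₁ * S₁) * S₂ := by simp only [Matrix.mul_assoc]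
      _ = 1 := by rw [q1, Matrix.mul_one, q2]
  · rw [Matrix.map_mul, Matrix.transpose_mul]
    calc (S₂.map s)ᵀ * (S₁.map s)ᵀ * A * (S₁ * S₂) = (S₂.map s)ᵀ * ((S₁.map s)ᵀ * A * S₁) * S₂ := by
          simp only [Matrix.mul_assoc]
      _ = A := by rw [i1, i2]
  · rw [Matrix.det_mul, d1, d2]; linear_combination 4 * hεε

section

variable (P : DefPair)

/-- positive integers are not zero divisors in the adeles -/
theorem hreg_P (m : ℕ) (hm : 0 < m) (x y : P.R) (h : (m : P.R) * x = (m : P.R) * y) : x = y := by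
  have hm0 : (m : P.E) ≠ 0 := by exact_mod_cast hm.ne'
  have hu : P.inc ((m : P.E)⁻¹) * (m : P.R) = 1 := by
    rw [← map_natCast P.inc, ← map_mul, inv_mul_cancel₀ hm0, map_one]
  calc x = P.inc ((m : P.E)⁻¹) * (m : P.R) * x := by rw [hu, one_mul]
    _ = P.inc ((m : P.E)⁻¹) * ((m : P.R) * x) := by ring
    _ = P.inc ((m : P.E)⁻¹) * (m : P.R) * y := by rw [h]; ring
    _ = y := by rw [hu, one_mul]

/-- the form is hermitian -/
theorem herm_P (i l : Fin P.n) : P.c (P.A l i) = P.A i l := by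
  obtain ⟨τ⟩ : Nonempty (P.E →+* ℂ) := inferInstance
  apply τ.injective
  have h1 := (P.definite τ).1
  have h2 := congrFun (congrFun h1 i) l
  rw [Matrix.conjTranspose_apply, Matrix.map_apply, Matrix.map_apply] at h2
  rw [P.cc τ, ← h2]
  rfl

theorem q_conj (x y : Fin P.n → P.E) : P.c (P.q x y) = P.q y x := by
  unfold DefPair.q form dotProduct Matrix.mulVec dotProduct
  rw [map_sum]
  simp_rw [map_mul, map_sum, Finset.mul_sum]
  rw [Finset.sum_comm]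
  refine Finset.sum_congr rfl fun i _ => Finset.sum_congr rfl fun l _ => ?_
  rw [map_mul, herm_P]
  have : P.c ((P.c : P.E →+* P.E) (x l)) = x l := P.invol (x l)
  rw [this]
  show x l * (P.A i l * P.c (y i)) = _
  show x l * (P.A i l * P.c (y i)) = P.c (y i) * (P.A i l * x l)
  ring

/-- `UnitAt` and idempotents -/
theorem unit_P (a : ℕ) (ε : P.R) (hd : ∀ d : ℕ, 0 < d → d.Coprime a → ∃ z ∈ P.O, ε = (d : P.R) * z) (y : P.E)
    (hy : UnitAt a y) : P.inc y * ε ∈ P.O ∧ P.inc y⁻¹ * ε ∈ P.O := by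
  obtain ⟨hy0, d, hd0, hda, h1, h2⟩ := hy
  obtain ⟨z, hz, hez⟩ := hd d hd0 hda
  constructor
  · have : P.inc y * ε = P.inc ((d : P.E) * y) * z := by
      rw [hez, map_mul, map_natCast]; ring
    rw [this]
    exact mul_mem (inc_P P _ h1) hz
  · have : P.inc y⁻¹ * ε = P.inc ((d : P.E) * y⁻¹) * z := by
      rw [hez, map_mul, map_natCast]; ring
    rw [this]
    exact mul_mem (inc_P P _ h2) hz

theorem frm_inc (x y : Fin P.n → P.E) : frm P.s (P.A.map P.inc) (fun i => P.inc (x i)) (fun i => P.inc (y i)) = P.inc (P.q x y) :=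
  form_map (P.c : P.E →+* P.E) P.s P.inc (s_inc P) P.A x y

theorem s_s (z : P.R) : P.s (P.s z) = z := by
  have h : (Algebra.TensorProduct.map P.c (AlgHom.id P.F P.Ad)).comp
      (Algebra.TensorProduct.map P.c (AlgHom.id P.F P.Ad)) = AlgHom.id P.F (P.E ⊗[P.F] P.Ad) := by
    rw [← Algebra.TensorProduct.map_comp]
    have : P.c.comp P.c = AlgHom.id P.F P.E := AlgHom.ext P.invol
    rw [this, AlgHom.comp_id, Algebra.TensorProduct.map_id]
  exact DFunLike.congr_fun h z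

theorem idem_P (a : ℕ) (ha : 0 < a) : ∃ ε : P.R, ε ∈ P.O ∧ ε * ε = ε ∧ P.s ε = ε ∧
    (∀ d : ℕ, 0 < d → d.Coprime a → ∃ z ∈ P.O, ε = (d : P.R) * z) ∧
    ∃ z ∈ P.O, 1 - ε = (a : P.R) * z := by
  have h := idem (F := P.F) (E := P.E) a ha
  rw [O_le P] at h
  obtain ⟨ε, h1, h2, h3, h4, h5⟩ := h
  exact ⟨ε, h1, h2, h3 P.c, h4, h5⟩

theorem oefin_P (m : ℕ) (hm : 0 < m) : ∃ T : Finset P.R, ∀ z ∈ P.O, ∃ x ∈ T, ∃ z' ∈ P.O,
    z = x + (m : P.R) * z' := by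
  have h := OE_fin (F := P.F) (E := P.E) m hm
  rw [O_le P] at h
  exact h

theorem exists_t (hI : P.Integral) (N m a : ℕ) (hN : 0 < N) (hm : N ∣ m) (hG : P.Good N m a) :
    ∃ t : P.G, RankOne P.O a P.ev (P.mat t) ∧ P.Lv a N t := by
  classical
  obtain ⟨x, hx, hxx, hxe⟩ := hG.ex
  obtain ⟨ε, hε, hεε, hsε, hεd, q₀, hq₀, hεa⟩ := idem_P P a hG.pos
  have haN : a.Coprime N := Nat.Coprime.coprime_dvd_right (Dvd.dvd.mul_left hm 2) hG.cop
  have ha2 : Nat.Coprime 2 a := (Nat.Coprime.coprime_dvd_right (Dvd.intro _ rfl) hG.cop).symm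
  obtain ⟨z₀, hz₀, hεN⟩ := hεd N hN haN.symm
  obtain ⟨z₂, hz₂, hε2⟩ := hεd 2 (by norm_num) ha2
  have hqx : P.q x x ≠ 0 := by
    intro h0; exact hxx.1 (by rw [h0, zero_div])
  have ha0 : (a : P.E) ≠ 0 := by exact_mod_cast hG.pos.ne'
  have hqe : P.q P.e P.e ≠ 0 := hG.ee.1
  obtain ⟨u1, u1'⟩ := unit_P P a ε hεd _ hxx
  obtain ⟨u2, u2'⟩ := unit_P P a ε hεd _ hG.ee
  obtain ⟨u3, u3'⟩ := unit_P P a ε hεd _ hxe
  obtain ⟨α, hα⟩ : ∃ α : P.R, α = P.inc (2 / P.q x x) * ε := ⟨_, rfl⟩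
  obtain ⟨α', hα'⟩ : ∃ α' : P.R, α' = P.inc (2 / P.q P.e P.e) * ε := ⟨_, rfl⟩
  obtain ⟨X, hX⟩ : ∃ X : Fin P.n → P.R, X = fun i => P.inc (x i) := ⟨_, rfl⟩
  obtain ⟨AA, hAA⟩ : ∃ AA : Matrix (Fin P.n) (Fin P.n) P.R, AA = P.A.map P.inc := ⟨_, rfl⟩
  have hfx : frm P.s AA X X = P.inc (P.q x x) := by rw [hAA, hX]; exact frm_inc P x x
  have hfe : frm P.s AA P.ev P.ev = P.inc (P.q P.e P.e) := by rw [hAA]; exact frm_inc P P.e P.e
  have hfxe : frm P.s AA X P.ev = P.inc (P.q x P.e) := by rw [hAA, hX]; exact frm_inc P x P.e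
  have hfex : frm P.s AA P.ev X = P.inc (P.q P.e x) := by rw [hAA, hX]; exact frm_inc P P.e x
  have hsα : P.s α = α := by
    rw [hα, map_mul, hsε, s_inc, map_div₀, q_conj, map_ofNat]
  have hsα' : P.s α' = α' := by
    rw [hα', map_mul, hsε, s_inc, map_div₀, q_conj, map_ofNat]
  have e1 : α * frm P.s AA X X = 2 * ε := by
    rw [hfx, hα]
    calc P.inc (2 / P.q x x) * ε * P.inc (P.q x x) = P.inc (2 / P.q x x * P.q x x) * ε := by rw [map_mul]; ring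
      _ = 2 * ε := by rw [div_mul_cancel₀ _ hqx, map_ofNat]
  have e2 : α' * frm P.s AA P.ev P.ev = 2 * ε := by
    rw [hfe, hα']
    calc P.inc (2 / P.q P.e P.e) * ε * P.inc (P.q P.e P.e) = P.inc (2 / P.q P.e P.e * P.q P.e P.e) * ε := by
          rw [map_mul]; ring
      _ = 2 * ε := by rw [div_mul_cancel₀ _ hqe, map_ofNat]
  have e3 : ε * α = α := by rw [hα]; linear_combination P.inc (2 / P.q x x) * hεε
  have e4 : ε * α' = α' := by rw [hα']; linear_combination P.inc (2 / P.q P.e P.e) * hεε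
  have hsq1 : α * α * frm P.s AA X X = 2 * α := by
    rw [mul_assoc, e1]; linear_combination 2 * e3
  have hsq2 : α' * α' * frm P.s AA P.ev P.ev = 2 * α' := by
    rw [mul_assoc, e2]; linear_combination 2 * e4
  have hAs : (AA.map P.s)ᵀ = AA := by
    ext i l
    rw [hAA, Matrix.transpose_apply, Matrix.map_apply, Matrix.map_apply, Matrix.map_apply, s_inc, herm_P]
  have hAO : ∀ i l, AA i l ∈ P.O := fun i l => by rw [hAA]; exact inc_P P _ (hI.1 i l)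
  have heO : ∀ i, P.ev i ∈ P.O := fun i => inc_P P _ (hI.2 i)
  have hXO : ∀ i, X i ∈ P.O := fun i => by rw [hX]; exact inc_P P _ (hx i)
  have haα : (a : P.R) * α = 2 * (P.inc (P.q x x / a)⁻¹ * ε) := by
    rw [hα]
    have : (2 : P.E) / P.q x x * a = 2 * (P.q x x / a)⁻¹ := by field_simp
    have h2 := congrArg P.inc this
    rw [map_mul, map_mul, map_natCast, map_ofNat] at h2
    linear_combination ε * h2
  have hα'O : α' ∈ P.O := by
    have : α' = 2 * (P.inc (P.q P.e P.e)⁻¹ * ε) := by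
      rw [hα', div_eq_mul_inv, map_mul, map_ofNat]; ring
    rw [this]
    exact mul_mem (by exact_mod_cast natCast_mem P.O 2) u2'
  obtain ⟨S₁, hS₁⟩ : ∃ S₁, S₁ = refl P.s AA X α := ⟨_, rfl⟩
  obtain ⟨S₂, hS₂⟩ : ∃ S₂, S₂ = refl P.s AA P.ev α' := ⟨_, rfl⟩
  have q1 : S₁ * S₁ = 1 := by rw [hS₁]; exact refl_sq _ _ _ _ hsq1
  have q2 : S₂ * S₂ = 1 := by rw [hS₂]; exact refl_sq _ _ _ _ hsq2
  have i1 : (S₁.map P.s)ᵀ * AA * S₁ = AA := by rw [hS₁]; exact refl_iso _ (s_s P) _ hAs _ _ hsα hsq1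
  have i2 : (S₂.map P.s)ᵀ * AA * S₂ = AA := by rw [hS₂]; exact refl_iso _ (s_s P) _ hAs _ _ hsα' hsq2
  have d1 : S₁.det = 1 - 2 * ε := by rw [hS₁, refl_det, e1]
  have d2 : S₂.det = 1 - 2 * ε := by rw [hS₂, refl_det, e2]
  have near := near P.s P.O (s_P P) AA hAO a N P.ev X heO hXO ε hε hεε q₀ hq₀ hεa z₀ hz₀ hεN α α' e3 e4 e1 e2
    (by rw [haα]; exact mul_mem (by exact_mod_cast natCast_mem P.O 2) u1') hα'O
    (P.inc (P.q x x / a) * ε * (P.inc (P.q x P.e)⁻¹ * ε) * z₂) (mul_mem (mul_mem u1 u3') hz₂) (by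
      rw [haα, hfxe]
      have k1 : P.inc (P.q x x / a) * P.inc (P.q x x / a)⁻¹ = 1 := by
        rw [← map_mul, mul_inv_cancel₀ hxx.1, map_one]
      have k2 : P.inc (P.q x P.e)⁻¹ * P.inc (P.q x P.e) = 1 := by
        rw [← map_mul, inv_mul_cancel₀ hxe.1, map_one]
      have k3 : ε = 2 * z₂ := by rw [hε2]; norm_num
      calc P.inc (P.q x x / a) * ε * (P.inc (P.q x P.e)⁻¹ * ε) * z₂ *
            (2 * (P.inc (P.q x x / a)⁻¹ * ε) * P.inc (P.q x P.e))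
          = (P.inc (P.q x x / a) * P.inc (P.q x x / a)⁻¹) * (P.inc (P.q x P.e)⁻¹ * P.inc (P.q x P.e)) *
            (ε * ε * ε) * (2 * z₂) := by ring
        _ = ε * ε * ε * ε := by rw [k1, k2, ← k3]; ring
        _ = ε := by rw [hεε, hεε, hεε])
    (P.s (P.inc (P.q x P.e)⁻¹ * ε)) (s_P P _ u3') (by
      rw [hfex, map_mul, hsε, s_inc, map_inv₀, q_conj]
      have hne : P.q P.e x ≠ 0 := by
        rw [← q_conj]; exact (map_ne_zero P.c).2 hxe.1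
      calc P.inc (P.q P.e x)⁻¹ * ε * P.inc (P.q P.e x) = P.inc ((P.q P.e x)⁻¹ * P.q P.e x) * ε := by
            rw [map_mul]; ring
        _ = ε := by rw [inv_mul_cancel₀ hne, map_one, one_mul])
  rw [← hS₁, ← hS₂] at near
  obtain ⟨m12, m21, iso, hdet⟩ := two_refl P.s AA S₁ S₂ q1 q2 i1 i2 ε hεε d1 d2
  obtain ⟨gl, hgl1, hgl2⟩ : ∃ gl : GL (Fin P.n) P.R, (gl : Matrix (Fin P.n) (Fin P.n) P.R) = S₁ * S₂ ∧
      ((gl⁻¹ : GL (Fin P.n) P.R) : Matrix (Fin P.n) (Fin P.n) P.R) = S₂ * S₁ :=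
    ⟨⟨S₁ * S₂, S₂ * S₁, m12, m21⟩, rfl, rfl⟩
  have hmem : gl ∈ P.Va := by
    refine ⟨?_, fun _ => ?_⟩
    · rw [hgl1, ← hAA]; exact iso
    · rw [hgl1]; exact hdet
  refine ⟨(⟨gl, hmem⟩ : P.Va), ?_, ?_, ?_⟩
  · show RankOne P.O a P.ev (gl : Matrix (Fin P.n) (Fin P.n) P.R)
    rw [hgl1]; exact near.1
  · show Lev P.O a N (gl : Matrix (Fin P.n) (Fin P.n) P.R)
    rw [hgl1]; exact near.2.1
  · show Lev P.O a N ((gl⁻¹ : GL (Fin P.n) P.R) : Matrix (Fin P.n) (Fin P.n) P.R)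
    rw [hgl2]; exact near.2.2

end

end Pool.Agent.H497.GP
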