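import Pool.Agent.H497.GQ.Big

set_option autoImplicit false

open scoped TensorProduct Matrix ComplexConjugate
open IsDedekindDomain NumberField

namespace Pool.Agent.H497.GP.DefPair

variable (P : DefPair)

/-- At least `k` systems of Hecke eigenvalues of level `N` on `G(V)` have nonzero period against every nonzero form of level
`N` on `G(W)`. Precisely: let `φ i` be a complete orthonormal system of automorphic forms of weight `ρ` (any unitary
representation of `G(V)(F)`) and level `K(N)`, consisting of eigenfunctions of the Hecke operators of all double cosets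
`K(N) g K(N)` with `g` away from `m`. Then for every form `φ' ≠ 0` of weight `ρ` and level `K(N)` on `G(W)` there are `k` indices
`i` such that the period of `φ i` against `φ'` is not zero, with pairwise distinct systems of eigenvalues. -/
def Many (N m k : ℕ) : Prop :=
  ∀ (S : Set P.G) (S' : Set P.H), Reps P.j (P.KN N) S → Reps P.jH (P.KW (P.KN N)) S' →
  ∀ (U : Type) [NormedAddCommGroup U] [InnerProductSpace ℂ U] (ρ : P.Γ →* (U ≃ₗᵢ[ℂ] U))
    (ι : Type) (φ : ι → P.G → U), IsBasis P.j (P.KN N) S ρ φ →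
  ∀ l : ι → P.G → ℂ, (∀ i g, P.Away N m g → hecke (P.KN N) (dc (P.KN N) g) (φ i) = l i g • φ i) →
  ∀ φ' : P.H → U, IsForm P.jH (P.KW (P.KN N)) S' (ρ.comp P.Δ.subtype) φ' → φ' ≠ 0 →
  ∃ s : Finset ι, s.card = k ∧ (∀ i ∈ s, P.per (P.KN N) S' φ' (φ i) ≠ 0) ∧
    ∀ i ∈ s, ∀ i' ∈ s, i ≠ i' → ∃ g, P.Away N m g ∧ l i g ≠ l i' g

end Pool.Agent.H497.GP.DefPair
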