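import Pool.Agent.H497.GP.Rtf

set_option autoImplicit false

open scoped TensorProduct Matrix ComplexConjugate
open IsDedekindDomain NumberField

namespace Pool.Agent.H497.GP

variable {Γ G U ι : Type*} [Group Γ] [Group G] [NormedAddCommGroup U] [InnerProductSpace ℂ U]



/- to be proved -/

theorem term_val_eq (j : Γ →* G) (K : Subgroup G) (hst : ∀ g : G, {γ : Γ | g⁻¹ * j γ * g ∈ K}.Finite)
    (ρ : Γ →* (U ≃ₗᵢ[ℂ] U)) (κ : G → ℂ) (hκ : IsHecke K κ) (y t : G) (u : U) (x : G) :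
    hecke K κ (lift j K ρ (y * t⁻¹) u) x = ∑ᶠ γ : Γ, κ (x⁻¹ * j γ * y * t⁻¹) • ρ γ u := by
  rw [hecke_lift j K hst ρ κ hκ]
  refine finsum_congr fun γ => ?_
  rw [← mul_assoc]

theorem term_mem (j : Γ →* G) (K : Subgroup G) (Δ : Subgroup Γ) (H : Subgroup G)
    (h : ∀ δ ∈ Δ, j δ ∈ H) (κ : G → ℂ) (t : G)
    (hgeo : ∀ (x y : H) (γ : Γ), κ ((x : G)⁻¹ * j γ * y * t⁻¹) ≠ 0 → γ ∈ Δ)
    (hdiag : ∀ y : H, κ ((y : G) * t⁻¹) ≠ 0 → (y : G) ∈ K) (x y : H) (γ : Γ)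
    (hne : κ ((x : G)⁻¹ * j γ * y * t⁻¹) ≠ 0) :
    γ ∈ Δ ∧ (x : G)⁻¹ * j γ * y ∈ K := by
  have h1 := hgeo x y γ hne
  refine ⟨h1, ?_⟩
  exact hdiag (x⁻¹ * ⟨j γ, h γ h1⟩ * y) hne


/-- Only `s = s₀` contributes. By `hecke_lift` the value at `s ∈ S'` is `∑ᶠ γ, κ (s⁻¹ j γ s₀ t⁻¹) • ρ γ (φ' s₀)`. A nonzero term has
`γ ∈ Δ` (`hgeo`), so `s⁻¹ j γ s₀ ∈ H`, in `K` (`hdiag`), so `s = s₀` (both represent `s₀`, `hS'`), and
`κ (k t⁻¹) = κ (t⁻¹)` for `k = s₀⁻¹ j γ s₀ ∈ K` (`hκ.inv`), `ρ γ (φ' s₀) = φ' (j γ s₀) = φ' (s₀ k) = φ' s₀` (`hφ'.eq`). There are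
`st (resHom ..) (K.subgroupOf H) s₀` such `γ`; the inner product divides by this number (nonzero by `res_fin`). -/
theorem term (j : Γ →* G) (K : Subgroup G) (Δ : Subgroup Γ) (H : Subgroup G) (h : ∀ δ ∈ Δ, j δ ∈ H)
    (hst : ∀ g : G, {γ : Γ | g⁻¹ * j γ * g ∈ K}.Finite)
    (S' : Set H) (hS' : Reps (resHom j Δ H h) (K.subgroupOf H) S') (ρ : Γ →* (U ≃ₗᵢ[ℂ] U))
    (φ' : H → U) (hφ' : IsForm (resHom j Δ H h) (K.subgroupOf H) S' (ρ.comp Δ.subtype) φ') (s₀ : H) (hs₀ : s₀ ∈ S')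
    (κ : G → ℂ) (hκ : IsHecke K κ) (t : G)
    (hgeo : ∀ (x y : H) (γ : Γ), κ ((x : G)⁻¹ * j γ * y * t⁻¹) ≠ 0 → γ ∈ Δ)
    (hdiag : ∀ y : H, κ ((y : G) * t⁻¹) ≠ 0 → (y : G) ∈ K) :
    ip (resHom j Δ H h) (K.subgroupOf H) S' φ'
      (fun x => hecke K κ (lift j K ρ ((s₀ : G) * t⁻¹) (φ' s₀)) x) = κ t⁻¹ * ((‖φ' s₀‖ ^ 2 : ℝ) : ℂ) := by
  classical
  have hval := fun x : H => term_val_eq j K hst ρ κ hκ (s₀ : G) t (φ' s₀) (x : G)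
  -- the other representatives
  have hoff : ∀ s ∈ S', s ≠ s₀ →
      hecke K κ (lift j K ρ ((s₀ : G) * t⁻¹) (φ' s₀)) (s : G) = 0 := by
    intro s hs hne
    rw [hval s]
    rw [← finsum_zero (α := Γ)]
    refine finsum_congr fun γ => ?_
    by_contra h0
    have h1 : κ ((s : G)⁻¹ * j γ * s₀ * t⁻¹) ≠ 0 := fun h2 => h0 (by rw [h2, zero_smul])
    obtain ⟨hΔ, hK⟩ := term_mem j K Δ H h κ t hgeo hdiag s s₀ γ h1
    apply hne
    refine (hS' s₀).unique ⟨hs, ⟨γ, hΔ⟩⁻¹, s⁻¹ * (resHom j Δ H h ⟨γ, hΔ⟩) * s₀, hK, ?_⟩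
      ⟨hs₀, 1, 1, one_mem _, by rw [map_one, one_mul, mul_one]⟩
    rw [map_inv]
    group
  have hip : ip (resHom j Δ H h) (K.subgroupOf H) S' φ'
      (fun x => hecke K κ (lift j K ρ ((s₀ : G) * t⁻¹) (φ' s₀)) x) =
      inner ℂ (φ' s₀) (hecke K κ (lift j K ρ ((s₀ : G) * t⁻¹) (φ' s₀)) (s₀ : G)) /
        (st (resHom j Δ H h) (K.subgroupOf H) s₀ : ℂ) := by
    unfold ip
    rw [finsum_eq_single _ s₀]
    · rw [finsum_eq_if, if_pos hs₀]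
    · intro s hs
      by_cases hsS : s ∈ S'
      · rw [finsum_eq_if, if_pos hsS]
        simp only [hoff s hsS hs, inner_zero_right, zero_div]
      · rw [finsum_eq_if, if_neg hsS]
  rw [hip]
  -- the main value
  set B := {δ : Δ // s₀⁻¹ * resHom j Δ H h δ * s₀ ∈ K.subgroupOf H} with hB
  have hfin : Finite B := (res_fin (K := K) h hst s₀).to_subtype
  have hst0 : st (resHom j Δ H h) (K.subgroupOf H) s₀ = Nat.card B := rfl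
  let em : B → Γ := fun b => (b.1 : Γ)
  have hem : Function.Injective em := fun b b' hb => Subtype.ext (Subtype.ext hb)
  have hsum : hecke K κ (lift j K ρ ((s₀ : G) * t⁻¹) (φ' s₀)) (s₀ : G) =
      (Nat.card B) • (κ t⁻¹ • φ' s₀) := by
    rw [hval s₀]
    have h1 : ∀ γ : Γ, κ ((s₀ : G)⁻¹ * j γ * s₀ * t⁻¹) • ρ γ (φ' s₀) =
        (Set.range em).indicator (fun _ => κ t⁻¹ • φ' s₀) γ := by
      intro γ
      by_cases hγ : γ ∈ Set.range em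
      · rw [Set.indicator_of_mem hγ]
        obtain ⟨b, rfl⟩ := hγ
        have hk : (s₀ : G)⁻¹ * j (em b) * s₀ ∈ K := b.2
        have h2 : κ ((s₀ : G)⁻¹ * j (em b) * s₀ * t⁻¹) = κ t⁻¹ := by
          have h3 := hκ.inv t⁻¹ _ hk 1 (one_mem K)
          rwa [mul_one] at h3
        have h4 : ρ (em b) (φ' s₀) = φ' s₀ := by
          have h5 := hφ'.eq b.1 s₀ (s₀⁻¹ * resHom j Δ H h b.1 * s₀)⁻¹ (inv_mem b.2)
          have h6 : resHom j Δ H h b.1 * s₀ * (s₀⁻¹ * resHom j Δ H h b.1 * s₀)⁻¹ = s₀ := by group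
          rw [h6] at h5
          exact h5.symm
        rw [h2, h4]
      · rw [Set.indicator_of_notMem hγ]
        by_contra h0
        have h2 : κ ((s₀ : G)⁻¹ * j γ * s₀ * t⁻¹) ≠ 0 := fun h3 => h0 (by rw [h3, zero_smul])
        obtain ⟨hΔ, hK⟩ := term_mem j K Δ H h κ t hgeo hdiag s₀ s₀ γ h2
        exact hγ ⟨⟨⟨γ, hΔ⟩, hK⟩, rfl⟩
    rw [finsum_congr h1, ← finsum_mem_def, finsum_mem_range hem]
    have : Fintype B := Fintype.ofFinite B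
    rw [finsum_eq_sum_of_fintype, Finset.sum_const, Finset.card_univ, Nat.card_eq_fintype_card]
  have hne : (Nat.card B : ℂ) ≠ 0 := by
    have : Nonempty B := ⟨⟨1, by
      rw [map_one, mul_one, inv_mul_cancel]
      exact one_mem _⟩⟩
    exact_mod_cast Nat.card_pos.ne'
  rw [hsum, hst0, ← Nat.cast_smul_eq_nsmul ℂ, inner_smul_right, inner_smul_right,
    inner_self_eq_norm_sq_to_K, mul_div_cancel_left₀ _ hne]
  push_cast
  rfl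

/-- All terms vanish. -/
theorem term_zero (j : Γ →* G) (K : Subgroup G) (Δ : Subgroup Γ) (H : Subgroup G) (h : ∀ δ ∈ Δ, j δ ∈ H)
    (hst : ∀ g : G, {γ : Γ | g⁻¹ * j γ * g ∈ K}.Finite) (S' : Set H) (ρ : Γ →* (U ≃ₗᵢ[ℂ] U))
    (φ' : H → U) (s₀ : H) (κ : G → ℂ) (hκ : IsHecke K κ) (t : G)
    (hgeo : ∀ (x y : H) (γ : Γ), κ ((x : G)⁻¹ * j γ * y * t⁻¹) ≠ 0 → γ ∈ Δ)
    (hzero : ∀ y : H, κ ((y : G) * t⁻¹) = 0) :
    ip (resHom j Δ H h) (K.subgroupOf H) S' φ'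
      (fun x => hecke K κ (lift j K ρ ((s₀ : G) * t⁻¹) (φ' s₀)) x) = 0 := by
  have hval : ∀ x : H, hecke K κ (lift j K ρ ((s₀ : G) * t⁻¹) (φ' s₀)) (x : G) = 0 := by
    intro x
    rw [term_val_eq j K hst ρ κ hκ (s₀ : G) t (φ' s₀) (x : G), ← finsum_zero (α := Γ)]
    refine finsum_congr fun γ => ?_
    by_contra h0
    have h1 : κ ((x : G)⁻¹ * j γ * s₀ * t⁻¹) ≠ 0 := fun h2 => h0 (by rw [h2, zero_smul])
    have h3 := hgeo x s₀ γ h1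
    exact h1 (hzero (x⁻¹ * ⟨j γ, h γ h3⟩ * s₀))
  unfold ip
  simp only [hval, inner_zero_right, zero_div, finsum_zero]

end Pool.Agent.H497.GP
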